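import Mathlib

open Set Filter Topology MeasureTheory Metric Complex
open scoped Real

namespace Pool.Agent.Helper37

/-- `w` lies in the copy of the cusp region with vertex `e` and direction `θ`. -/
def InCusp (α : ℝ) (e : ℂ) (θ : ℝ) (w : ℂ) : Prop :=
  0 < ((w - e) * exp (-(θ * I))).re ∧
    |((w - e) * exp (-(θ * I))).im| < ((w - e) * exp (-(θ * I))).re ^ α

lemma norm_exp_neg_mul_I (θ : ℝ) : ‖exp (-(θ * I))‖ = 1 := by
  have : -(θ * I : ℂ) = ((-θ : ℝ) : ℂ) * I := by push_cast; ring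
  rw [this, Complex.norm_exp_ofReal_mul_I]

lemma norm_exp_sub_exp_le (θ θ' : ℝ) :
    ‖exp (-(θ * I)) - exp (-(θ' * I))‖ ≤ |θ - θ'| := by
  have h : exp (-(θ * I)) - exp (-(θ' * I)) = exp (-(θ' * I)) * (exp (I * ((θ' - θ : ℝ) : ℂ)) - 1) := by
    rw [mul_sub, mul_one, ← Complex.exp_add]
    congr 2
    push_cast
    ring
  rw [h, norm_mul, norm_exp_neg_mul_I, one_mul]
  refine (Real.norm_exp_I_mul_ofReal_sub_one_le).trans ?_
  rw [Real.norm_eq_abs, abs_sub_comm]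

/-- Closed version of the cusp condition. -/
lemma closure_inCusp {α : ℝ} (hα : 0 < α) {U : Set ℂ} {e : ℂ} {θ : ℝ}
    (hU : ∀ w ∈ U, InCusp α e θ w) {x : ℂ} (hx : x ∈ closure U) :
    0 ≤ ((x - e) * exp (-(θ * I))).re ∧
    |((x - e) * exp (-(θ * I))).im| ≤ ((x - e) * exp (-(θ * I))).re ^ α := by
  have hcl : IsClosed {w : ℂ | 0 ≤ ((w - e) * exp (-(θ * I))).re ∧
      |((w - e) * exp (-(θ * I))).im| ≤ ((w - e) * exp (-(θ * I))).re ^ α} := by
    have hc1 : Continuous (fun w : ℂ => ((w - e) * exp (-(θ * I))).re) := by fun_prop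
    have hc2 : Continuous (fun w : ℂ => |((w - e) * exp (-(θ * I))).im|) := by fun_prop
    have hc3 : Continuous (fun w : ℂ => ((w - e) * exp (-(θ * I))).re ^ α) :=
      (Real.continuous_rpow_const hα.le).comp hc1
    exact (isClosed_le continuous_const hc1).inter (isClosed_le hc2 hc3)
  have hsub : U ⊆ {w : ℂ | 0 ≤ ((w - e) * exp (-(θ * I))).re ∧
      |((w - e) * exp (-(θ * I))).im| ≤ ((w - e) * exp (-(θ * I))).re ^ α} :=
    fun w hw => ⟨(hU w hw).1.le, (hU w hw).2.le⟩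
  exact closure_minimal hsub hcl hx

lemma re_ge_of_cusp {α : ℝ} (hα : 1 / 2 < α) (hα1 : α < 1) {ζ : ℂ} (h0 : 0 ≤ ζ.re)
    (h1 : |ζ.im| ≤ ζ.re ^ α) (hs : ‖ζ‖ ≤ 1) : ‖ζ‖ ^ (1 / α) / 2 ≤ ζ.re := by
  have hα0 : 0 < α := by linarith
  have hre1 : ζ.re ≤ 1 := (Complex.re_le_norm ζ).trans hs
  have h2 : ζ.re ≤ ζ.re ^ α := by
    calc ζ.re = ζ.re ^ (1 : ℝ) := (Real.rpow_one _).symm
      _ ≤ ζ.re ^ α := by
        rcases h0.eq_or_lt with h | h
        · rw [← h, Real.zero_rpow one_ne_zero, Real.zero_rpow hα0.ne']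
        · exact Real.rpow_le_rpow_of_exponent_ge h hre1 hα1.le
  have hpow : 0 ≤ ζ.re ^ α := Real.rpow_nonneg h0 _
  have h3 : ‖ζ‖ ^ 2 ≤ 2 * (ζ.re ^ α) ^ 2 := by
    rw [Complex.sq_norm, Complex.normSq_apply]
    have : ζ.im * ζ.im ≤ (ζ.re ^ α) ^ 2 := by
      rw [← abs_mul_abs_self ζ.im, ← sq]
      exact pow_le_pow_left₀ (abs_nonneg _) h1 2
    nlinarith
  have h4 : ‖ζ‖ ≤ Real.sqrt 2 * ζ.re ^ α := by
    apply abs_le_of_sq_le_sq' _ (by positivity) |>.2
    rw [mul_pow, Real.sq_sqrt (by norm_num)]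
    exact h3
  have h5 : ‖ζ‖ ^ (1 / α) ≤ (Real.sqrt 2 * ζ.re ^ α) ^ (1 / α) :=
    Real.rpow_le_rpow (norm_nonneg _) h4 (by positivity)
  rw [Real.mul_rpow (by positivity) hpow, ← Real.rpow_mul h0, mul_one_div_cancel hα0.ne',
    Real.rpow_one] at h5
  have h6 : Real.sqrt 2 ^ (1 / α) ≤ 2 := by
    have h7 : Real.sqrt 2 ^ (1 / α) ≤ Real.sqrt 2 ^ (2 : ℝ) := by
      apply Real.rpow_le_rpow_of_exponent_le
      · rw [Real.one_le_sqrt]; norm_num
      · rw [div_le_iff₀ hα0]; linarith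
    rw [Real.rpow_two, Real.sq_sqrt (by norm_num)] at h7
    exact h7
  nlinarith

/-- Two points of the boundary of `U`, both vertices of cusps containing `U`, are separated in
direction. -/
lemma cusp_separation {α : ℝ} (hα : 1 / 2 < α) (hα1 : α < 1) {U : Set ℂ} {e e' : ℂ} {θ θ' : ℝ}
    (hU : ∀ w ∈ U, InCusp α e θ w) (hU' : ∀ w ∈ U, InCusp α e' θ' w)
    (he : e ∈ closure U) (he' : e' ∈ closure U) (hd : ‖e - e'‖ ≤ 1) :
    ‖e - e'‖ ^ (1 / α) ≤ ‖e - e'‖ * |θ - θ'| := by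
  have hα0 : 0 < α := by linarith
  obtain ⟨h1, h2⟩ := closure_inCusp hα0 hU he'
  obtain ⟨h3, h4⟩ := closure_inCusp hα0 hU' he
  have hn1 : ‖(e' - e) * exp (-(θ * I))‖ = ‖e - e'‖ := by
    rw [norm_mul, norm_exp_neg_mul_I, mul_one, norm_sub_rev]
  have hn2 : ‖(e - e') * exp (-(θ' * I))‖ = ‖e - e'‖ := by
    rw [norm_mul, norm_exp_neg_mul_I, mul_one]
  have h5 := re_ge_of_cusp hα hα1 h1 h2 (by rw [hn1]; exact hd)
  have h6 := re_ge_of_cusp hα hα1 h3 h4 (by rw [hn2]; exact hd)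
  rw [hn1] at h5
  rw [hn2] at h6
  have h7 : ((e' - e) * exp (-(θ * I))).re + ((e - e') * exp (-(θ' * I))).re =
      ((e' - e) * (exp (-(θ * I)) - exp (-(θ' * I)))).re := by
    rw [← Complex.add_re]; congr 1; ring
  have h8 : ((e' - e) * (exp (-(θ * I)) - exp (-(θ' * I)))).re ≤ ‖e - e'‖ * |θ - θ'| := by
    refine (Complex.re_le_norm _).trans ?_
    rw [norm_mul, norm_sub_rev e' e]
    exact mul_le_mul_of_nonneg_left (norm_exp_sub_exp_le θ θ') (norm_nonneg _)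
  linarith

lemma dist_le_of_angle {α : ℝ} (hα : 1 / 2 < α) (hα1 : α < 1) {s η : ℝ} (hs : 0 ≤ s) (hη : 0 < η)
    (h : s ^ (1 / α) ≤ s * η) : s ≤ η ^ (α / (1 - α)) := by
  have hα0 : 0 < α := by linarith
  rcases hs.eq_or_lt with h0 | h0
  · rw [← h0]; positivity
  · have h1 : s ^ (1 / α - 1) ≤ η := by
      rw [Real.rpow_sub h0, Real.rpow_one, div_le_iff₀ h0]
      linarith
    have h2 : (s ^ (1 / α - 1)) ^ (α / (1 - α)) ≤ η ^ (α / (1 - α)) :=
      Real.rpow_le_rpow (by positivity) h1 (by have : 0 < 1 - α := by linarith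
                                               positivity)
    rw [← Real.rpow_mul hs] at h2
    have h3 : (1 / α - 1) * (α / (1 - α)) = 1 := by
      have : 1 - α ≠ 0 := by linarith
      field_simp
    rwa [h3, Real.rpow_one] at h2

/-- Radius of the covering discs. -/
noncomputable def rad (α : ℝ) (n : ℕ) : ℝ := (2 * π / n) ^ (α / (1 - α))

lemma rad_pos {α : ℝ} {n : ℕ} (hn : 0 < n) : 0 < rad α n := by
  unfold rad
  have : (0 : ℝ) < n := by exact_mod_cast hn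
  have := Real.pi_pos
  positivity

/-- Covering of the cusp points of a set by few small discs. -/
lemma cusp_cover {α : ℝ} (hα : 1 / 2 < α) (hα1 : α < 1) {U E : Set ℂ}
    (hEU : E ⊆ closure U) (hE : ∀ e ∈ E, ∃ θ : ℝ, ∀ w ∈ U, InCusp α e θ w)
    (hd : ∀ e ∈ E, ∀ e' ∈ E, ‖e - e'‖ ≤ 1) {n : ℕ} (hn : 0 < n) :
    ∃ F : Finset (ℂ × ℝ), F.card ≤ n + 1 ∧ (∀ p ∈ F, p.1 ∈ E ∧ ∀ w ∈ U, InCusp α p.1 p.2 w) ∧
      ∀ e ∈ E, ∃ p ∈ F, ‖e - p.1‖ ≤ rad α n := by
  classical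
  have hn' : (0 : ℝ) < n := by exact_mod_cast hn
  let P : Set (ℂ × ℝ) := {p | p.1 ∈ E ∧ p.2 ∈ Ioc (-π) π ∧ ∀ w ∈ U, InCusp α p.1 p.2 w}
  let idx : ℂ × ℝ → ℕ := fun p => ⌊(p.2 + π) * n / (2 * π)⌋₊
  have hidx : ∀ p ∈ P, idx p < n + 1 := by
    intro p hp
    have h1 : (p.2 + π) * n / (2 * π) ≤ n := by
      rw [div_le_iff₀ Real.two_pi_pos]
      have := hp.2.1.2
      nlinarith
    have h2 : idx p ≤ n := by
      apply Nat.floor_le_of_le h1
    omega
  have hsel : ∀ i : ℕ, ∃ q : ℂ × ℝ, (∃ p ∈ P, idx p = i) → (q ∈ P ∧ idx q = i) := by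
    intro i
    by_cases h : ∃ p ∈ P, idx p = i
    · obtain ⟨p, hp, hpi⟩ := h
      exact ⟨p, fun _ => ⟨hp, hpi⟩⟩
    · exact ⟨(0, 0), fun h' => absurd h' h⟩
  choose sel hsel using hsel
  let J : Finset ℕ := (Finset.range (n + 1)).filter (fun i => ∃ p ∈ P, idx p = i)
  refine ⟨J.image sel, ?_, ?_, ?_⟩
  · calc (J.image sel).card ≤ J.card := Finset.card_image_le
      _ ≤ (Finset.range (n + 1)).card := Finset.card_filter_le _ _
      _ = n + 1 := Finset.card_range _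
  · intro p hp
    rw [Finset.mem_image] at hp
    obtain ⟨i, hi, rfl⟩ := hp
    rw [Finset.mem_filter] at hi
    have h1 := (hsel i hi.2).1
    exact ⟨h1.1, h1.2.2⟩
  · intro e he
    obtain ⟨θ, hθ⟩ := hE e he
    -- normalise the angle
    obtain ⟨θ', hθ'1, hθ'2⟩ : ∃ θ' ∈ Ioc (-π) π, exp (-(θ' * I)) = exp (-(θ * I)) := by
      refine ⟨toIocMod Real.two_pi_pos (-π) θ, ?_, ?_⟩
      · have := toIocMod_mem_Ioc Real.two_pi_pos (-π) θ
        rwa [show -π + 2 * π = π by ring] at this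
      · have h1 : toIocMod Real.two_pi_pos (-π) θ = θ - toIocDiv Real.two_pi_pos (-π) θ • (2 * π) :=
          rfl
        rw [h1]
        have h2 : (-(((θ - toIocDiv Real.two_pi_pos (-π) θ • (2 * π) : ℝ) : ℂ) * I)) =
            -(θ * I) + (toIocDiv Real.two_pi_pos (-π) θ : ℤ) * (2 * π * I) := by
          push_cast [zsmul_eq_mul]
          ring
        rw [h2, Complex.exp_add, Complex.exp_int_mul_two_pi_mul_I, mul_one]
    have hP : (e, θ') ∈ P := by
      refine ⟨he, hθ'1, fun w hw => ?_⟩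
      have := hθ w hw
      unfold InCusp at this ⊢
      simp only
      rw [hθ'2]
      exact this
    set i := idx (e, θ') with hi
    have hex : ∃ p ∈ P, idx p = i := ⟨(e, θ'), hP, rfl⟩
    obtain ⟨hs1, hs2⟩ := hsel i hex
    refine ⟨sel i, ?_, ?_⟩
    · rw [Finset.mem_image]
      refine ⟨i, ?_, rfl⟩
      rw [Finset.mem_filter, Finset.mem_range]
      exact ⟨hidx _ hP, hex⟩
    · have hang : |θ' - (sel i).2| ≤ 2 * π / n := by
        have hf : ⌊(θ' + π) * n / (2 * π)⌋₊ = ⌊((sel i).2 + π) * n / (2 * π)⌋₊ := by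
          have h0 : idx (e, θ') = idx (sel i) := by rw [hs2]
          exact h0
        have hp1 : 0 ≤ (θ' + π) * n / (2 * π) := by
          have := hθ'1.1
          have := Real.two_pi_pos
          apply div_nonneg _ this.le
          apply mul_nonneg _ hn'.le
          linarith
        have hp2 : 0 ≤ ((sel i).2 + π) * n / (2 * π) := by
          have := hs1.2.1.1
          have := Real.two_pi_pos
          apply div_nonneg _ this.le
          apply mul_nonneg _ hn'.le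
          linarith
        have ha := Nat.floor_le hp1
        have hb := Nat.lt_floor_add_one ((θ' + π) * n / (2 * π))
        have hc := Nat.floor_le hp2
        have hdd := Nat.lt_floor_add_one (((sel i).2 + π) * n / (2 * π))
        rw [← hf] at hc hdd
        have h1 : |(θ' + π) * n / (2 * π) - ((sel i).2 + π) * n / (2 * π)| ≤ 1 := by
          rw [abs_le]; constructor <;> linarith
        have h2 : (θ' + π) * n / (2 * π) - ((sel i).2 + π) * n / (2 * π) =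
            (θ' - (sel i).2) * (n / (2 * π)) := by ring
        rw [h2, abs_mul, abs_of_pos (by positivity : 0 < (n : ℝ) / (2 * π))] at h1
        rw [le_div_iff₀ hn']
        have h3 : |θ' - (sel i).2| * n = |θ' - (sel i).2| * (n / (2 * π)) * (2 * π) := by
          field_simp
        rw [h3]
        have := Real.two_pi_pos
        nlinarith
      apply dist_le_of_angle hα hα1 (norm_nonneg _) (by positivity)
      refine (cusp_separation hα hα1 hP.2.2 hs1.2.2 (hEU he) (hEU hs1.1) (hd _ he _ hs1.1)).trans ?_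
      exact mul_le_mul_of_nonneg_left hang (norm_nonneg _)

/-- Explicit positive harmonic function of a half plane, large near its boundary point `e`. -/
noncomputable def hp (δ : ℝ) (e : ℂ) (θ : ℝ) (z : ℂ) : ℝ :=
  4 * δ * (((z - e) * exp (-(θ * I)) + δ)⁻¹).re

section hp

variable {δ : ℝ} (hδ : 0 < δ) {e : ℂ} {θ : ℝ}

include hδ

lemma norm_add_ge {ζ : ℂ} (h : 0 ≤ ζ.re) : ‖ζ‖ ≤ ‖ζ + δ‖ := by
  apply le_of_sq_le_sq _ (norm_nonneg _)
  rw [Complex.sq_norm, Complex.sq_norm, Complex.normSq_apply, Complex.normSq_apply]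
  simp only [Complex.add_re, Complex.ofReal_re, Complex.add_im, Complex.ofReal_im, add_zero]
  nlinarith

lemma add_ne_zero' {ζ : ℂ} (h : 0 ≤ ζ.re) : ζ + δ ≠ 0 := by
  intro h0
  have := congrArg Complex.re h0
  simp only [Complex.add_re, Complex.ofReal_re, Complex.zero_re] at this
  linarith

lemma hp_nonneg {z : ℂ} (h : 0 ≤ ((z - e) * exp (-(θ * I))).re) : 0 ≤ hp δ e θ z := by
  unfold hp
  rw [Complex.inv_re]
  have : 0 ≤ ((z - e) * exp (-(θ * I)) + δ).re := by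
    simp only [Complex.add_re, Complex.ofReal_re]
    linarith
  have h2 := Complex.normSq_nonneg ((z - e) * exp (-(θ * I)) + δ)
  positivity

lemma hp_le {z : ℂ} (h : 0 ≤ ((z - e) * exp (-(θ * I))).re) {s : ℝ} (hs : 0 < s)
    (hz : s ≤ ‖z - e‖) : hp δ e θ z ≤ 4 * δ / s := by
  unfold hp
  rw [div_eq_mul_inv]
  apply mul_le_mul_of_nonneg_left _ (by positivity)
  refine (Complex.re_le_norm _).trans ?_
  rw [norm_inv]
  apply inv_anti₀ hs
  refine le_trans ?_ (norm_add_ge hδ h)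
  rwa [norm_mul, norm_exp_neg_mul_I, mul_one]

lemma hp_ge_one {z : ℂ} (h : 0 ≤ ((z - e) * exp (-(θ * I))).re) (hz : ‖z - e‖ ≤ δ) :
    1 ≤ hp δ e θ z := by
  unfold hp
  set ζ := (z - e) * exp (-(θ * I)) with hζ
  have hn : ‖ζ‖ ≤ δ := by rw [hζ, norm_mul, norm_exp_neg_mul_I, mul_one]; exact hz
  rw [Complex.inv_re]
  have h1 : Complex.normSq (ζ + δ) ≤ (2 * δ) ^ 2 := by
    rw [← Complex.sq_norm]
    apply pow_le_pow_left₀ (norm_nonneg _)
    calc ‖ζ + δ‖ ≤ ‖ζ‖ + ‖(δ : ℂ)‖ := norm_add_le _ _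
      _ ≤ 2 * δ := by rw [Complex.norm_real, Real.norm_eq_abs, abs_of_pos hδ]; linarith
  have h2 : 0 < Complex.normSq (ζ + δ) := Complex.normSq_pos.2 (add_ne_zero' hδ h)
  have h3 : (ζ + δ).re = ζ.re + δ := by simp
  rw [h3, ← mul_div_assoc, le_div_iff₀ h2]
  nlinarith

lemma hp_continuousAt {z : ℂ} (h : 0 ≤ ((z - e) * exp (-(θ * I))).re) :
    ContinuousAt (hp δ e θ) z := by
  unfold hp
  have hne : (z - e) * exp (-(θ * I)) + δ ≠ 0 := add_ne_zero' hδ h
  have h0 : ContinuousAt (fun z : ℂ => (z - e) * exp (-(θ * I)) + δ) z := by fun_prop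
  have h1 : ContinuousAt (fun z : ℂ => ((z - e) * exp (-(θ * I)) + δ)⁻¹) z := h0.inv₀ hne
  have h2 : ContinuousAt (fun z : ℂ => (((z - e) * exp (-(θ * I)) + δ)⁻¹).re) z :=
    Complex.continuous_re.continuousAt.comp h1
  exact continuousAt_const.mul h2

lemma hp_lipschitz {z z' : ℂ} (h : 0 ≤ ((z - e) * exp (-(θ * I))).re)
    (h' : 0 ≤ ((z' - e) * exp (-(θ * I))).re) {s : ℝ} (hs : 0 < s)
    (hz : s ≤ ‖z - e‖) (hz' : s ≤ ‖z' - e‖) :
    |hp δ e θ z - hp δ e θ z'| ≤ 4 * δ / s ^ 2 * ‖z - z'‖ := by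
  unfold hp
  rw [← mul_sub, abs_mul, abs_of_pos (by positivity : 0 < 4 * δ), ← Complex.sub_re,
    div_eq_mul_inv, mul_assoc (4 * δ) (s ^ 2)⁻¹]
  apply mul_le_mul_of_nonneg_left _ (by positivity)
  refine (Complex.abs_re_le_norm _).trans ?_
  set a := (z - e) * exp (-(θ * I)) + δ with ha
  set b := (z' - e) * exp (-(θ * I)) + δ with hb
  have ha0 : a ≠ 0 := add_ne_zero' hδ h
  have hb0 : b ≠ 0 := add_ne_zero' hδ h'
  have h1 : a⁻¹ - b⁻¹ = a⁻¹ * (b - a) * b⁻¹ := by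
    field_simp
  have h2 : ‖b - a‖ = ‖z - z'‖ := by
    have : b - a = (z' - z) * exp (-(θ * I)) := by rw [ha, hb]; ring
    rw [this, norm_mul, norm_exp_neg_mul_I, mul_one, norm_sub_rev]
  rw [h1, norm_mul, norm_mul, norm_inv, norm_inv, h2]
  have h3 : ‖a‖⁻¹ ≤ s⁻¹ := by
    apply inv_anti₀ hs
    refine le_trans ?_ (norm_add_ge hδ h)
    rwa [norm_mul, norm_exp_neg_mul_I, mul_one]
  have h4 : ‖b‖⁻¹ ≤ s⁻¹ := by
    apply inv_anti₀ hs
    refine le_trans ?_ (norm_add_ge hδ h')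
    rwa [norm_mul, norm_exp_neg_mul_I, mul_one]
  calc ‖a‖⁻¹ * ‖z - z'‖ * ‖b‖⁻¹ ≤ s⁻¹ * ‖z - z'‖ * s⁻¹ := by gcongr
    _ = (s ^ 2)⁻¹ * ‖z - z'‖ := by rw [sq, mul_inv]; ring

lemma hp_circleAverage {z : ℂ} {ρ : ℝ} (hρ : 0 < ρ)
    (h : ∀ w ∈ closedBall z ρ, 0 ≤ ((w - e) * exp (-(θ * I))).re) :
    Real.circleAverage (hp δ e θ) z ρ = hp δ e θ z := by
  have hd : DiffContOnCl ℂ (fun z : ℂ => ((4 * δ : ℝ) : ℂ) * ((z - e) * exp (-(θ * I)) + δ)⁻¹)
      (ball z |ρ|) := by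
    rw [abs_of_pos hρ]
    have hd' : DifferentiableOn ℂ
        (fun z : ℂ => ((4 * δ : ℝ) : ℂ) * ((z - e) * exp (-(θ * I)) + δ)⁻¹) (closedBall z ρ) := by
      apply DifferentiableOn.const_mul
      apply DifferentiableOn.inv (by fun_prop)
      intro w hw
      exact add_ne_zero' hδ (h w hw)
    apply DifferentiableOn.diffContOnCl
    rwa [closure_ball _ hρ.ne']
  have h1 := hd.circleAverage
  have h2 : CircleIntegrable (fun z : ℂ => ((4 * δ : ℝ) : ℂ) * ((z - e) * exp (-(θ * I)) + δ)⁻¹)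
      z ρ := by
    apply ContinuousOn.circleIntegrable'
    rw [abs_of_pos hρ]
    have := hd.continuousOn
    rw [abs_of_pos hρ, closure_ball _ hρ.ne'] at this
    exact this.mono sphere_subset_closedBall
  have h3 := Complex.reCLM.circleAverage_comp_comm h2
  rw [h1] at h3
  have h4 : ∀ w : ℂ, Complex.reCLM (((4 * δ : ℝ) : ℂ) * ((w - e) * exp (-(θ * I)) + δ)⁻¹)
      = hp δ e θ w := by
    intro w
    rw [Complex.reCLM_apply, Complex.re_ofReal_mul]
    rfl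
  rw [h4] at h3
  rw [← h3]
  congr 1
  ext w
  exact (h4 w).symm

end hp

/-- The bound governing everything; it tends to `0`. -/
noncomputable def bnd (α : ℝ) (n : ℕ) : ℝ := (n + 1) * (4 * rad α n)

lemma bnd_pos {α : ℝ} {n : ℕ} (hn : 0 < n) : 0 < bnd α n := by
  unfold bnd
  have := rad_pos (α := α) hn
  positivity

lemma tendsto_bnd {α : ℝ} (hα : 1 / 2 < α) (hα1 : α < 1) :
    Tendsto (bnd α) atTop (𝓝 0) := by
  set β := α / (1 - α) with hβ
  have hβ1 : 1 < β := by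
    rw [hβ, one_lt_div (by linarith)]; linarith
  -- (n+1) * 4 * (2π/n)^β ≤ 8 (2π)^β n^(1-β)
  have h1 : Tendsto (fun n : ℕ => 8 * (2 * π) ^ β * (n : ℝ) ^ (-(β - 1))) atTop (𝓝 0) := by
    have := (tendsto_rpow_neg_atTop (by linarith : 0 < β - 1)).comp tendsto_natCast_atTop_atTop
    simpa using this.const_mul (8 * (2 * π) ^ β)
  apply squeeze_zero' _ _ h1
  · filter_upwards [eventually_gt_atTop 0] with n hn
    exact (bnd_pos hn).le
  · filter_upwards [eventually_gt_atTop 0] with n hn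
    have hn' : (1 : ℝ) ≤ n := by exact_mod_cast hn
    have hn0 : (0 : ℝ) < n := by linarith
    unfold bnd rad
    rw [← hβ, Real.div_rpow (by positivity) hn0.le, neg_sub, Real.rpow_sub hn0, Real.rpow_one]
    have h2 : 0 < (2 * π) ^ β := by positivity
    have h3 : 0 < (n : ℝ) ^ β := by positivity
    calc ((n : ℝ) + 1) * (4 * ((2 * π) ^ β / (n : ℝ) ^ β))
        ≤ (2 * n) * (4 * ((2 * π) ^ β / (n : ℝ) ^ β)) := by
          gcongr; linarith
      _ = 8 * (2 * π) ^ β * (n / (n : ℝ) ^ β) := by ring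

/-- The harmonic functions showing that the cusp points of `U` have harmonic measure zero. -/
lemma exists_cusp_function {α : ℝ} (hα : 1 / 2 < α) (hα1 : α < 1) {U E : Set ℂ}
    (hEU : E ⊆ closure U) (hE : ∀ e ∈ E, ∃ θ : ℝ, ∀ w ∈ U, InCusp α e θ w)
    (hd : ∀ e ∈ E, ∀ e' ∈ E, ‖e - e'‖ ≤ 1) {n : ℕ} (hn : 0 < n) :
    ∃ v : ℂ → ℝ, (∀ z ∈ U, 0 ≤ v z) ∧
      (∀ z ρ, 0 < ρ → closedBall z ρ ⊆ U → Real.circleAverage v z ρ = v z) ∧
      ContinuousOn v U ∧
      (∀ z ∈ U, ∀ s, 0 < s → (∀ e ∈ E, s ≤ ‖z - e‖) → v z ≤ bnd α n / s) ∧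
      (∀ z ∈ U, ∀ z' ∈ U, ∀ s, 0 < s → (∀ e ∈ E, s ≤ ‖z - e‖) → (∀ e ∈ E, s ≤ ‖z' - e‖) →
        |v z - v z'| ≤ bnd α n / s ^ 2 * ‖z - z'‖) ∧
      (∀ ξ ∈ E, ∀ η > 0, ∀ᶠ z in 𝓝[U] ξ, 1 - η ≤ v z) := by
  obtain ⟨F, hFc, hF, hcov⟩ := cusp_cover hα hα1 hEU hE hd hn
  have hδ : 0 < rad α n := rad_pos hn
  have hα0 : 0 < α := by linarith
  have hre : ∀ p ∈ F, ∀ z ∈ U, 0 ≤ ((z - p.1) * exp (-(p.2 * I))).re := fun p hp z hz =>
    ((hF p hp).2 z hz).1.le
  have hcard : (F.card : ℝ) ≤ n + 1 := by exact_mod_cast hFc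
  refine ⟨fun z => ∑ p ∈ F, hp (rad α n) p.1 p.2 z, ?_, ?_, ?_, ?_, ?_, ?_⟩
  · intro z hz
    exact Finset.sum_nonneg fun p hp' => hp_nonneg hδ (hre p hp' z hz)
  · intro z ρ hρ hsub
    have hz : z ∈ U := hsub (mem_closedBall_self hρ.le)
    rw [Real.circleAverage_fun_sum]
    · apply Finset.sum_congr rfl
      intro p hp'
      exact hp_circleAverage hδ hρ (fun w hw => hre p hp' w (hsub hw))
    · intro p hp'
      apply ContinuousOn.circleIntegrable'
      rw [abs_of_pos hρ]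
      intro w hw
      exact (hp_continuousAt hδ (hre p hp' w
        (hsub (sphere_subset_closedBall hw)))).continuousWithinAt
  · apply continuousOn_finsetSum
    intro p hp' w hw
    exact (hp_continuousAt hδ (hre p hp' w hw)).continuousWithinAt
  · intro z hz s hs hsE
    calc ∑ p ∈ F, hp (rad α n) p.1 p.2 z ≤ ∑ p ∈ F, 4 * rad α n / s := by
          apply Finset.sum_le_sum
          intro p hp'
          exact hp_le hδ (hre p hp' z hz) hs (hsE _ (hF p hp').1)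
      _ = F.card * (4 * rad α n / s) := by rw [Finset.sum_const, nsmul_eq_mul]
      _ ≤ (n + 1) * (4 * rad α n / s) := by gcongr
      _ = bnd α n / s := by unfold bnd; ring
  · intro z hz z' hz' s hs hsE hsE'
    rw [← Finset.sum_sub_distrib]
    calc |∑ p ∈ F, (hp (rad α n) p.1 p.2 z - hp (rad α n) p.1 p.2 z')|
        ≤ ∑ p ∈ F, |hp (rad α n) p.1 p.2 z - hp (rad α n) p.1 p.2 z'| :=
          Finset.abs_sum_le_sum_abs _ _
      _ ≤ ∑ p ∈ F, 4 * rad α n / s ^ 2 * ‖z - z'‖ := by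
          apply Finset.sum_le_sum
          intro p hp'
          exact hp_lipschitz hδ (hre p hp' z hz) (hre p hp' z' hz') hs (hsE _ (hF p hp').1)
            (hsE' _ (hF p hp').1)
      _ = F.card * (4 * rad α n / s ^ 2 * ‖z - z'‖) := by rw [Finset.sum_const, nsmul_eq_mul]
      _ ≤ (n + 1) * (4 * rad α n / s ^ 2 * ‖z - z'‖) := by gcongr
      _ = bnd α n / s ^ 2 * ‖z - z'‖ := by unfold bnd; ring
  · intro ξ hξ η hη
    obtain ⟨p, hpF, hpξ⟩ := hcov ξ hξ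
    have hcl : 0 ≤ ((ξ - p.1) * exp (-(p.2 * I))).re :=
      (closure_inCusp hα0 (hF p hpF).2 (hEU hξ)).1
    have h1 : 1 ≤ hp (rad α n) p.1 p.2 ξ := hp_ge_one hδ hcl hpξ
    have h2 : ∀ᶠ z in 𝓝 ξ, 1 - η < hp (rad α n) p.1 p.2 z :=
      (hp_continuousAt hδ hcl).eventually (lt_mem_nhds (by linarith))
    filter_upwards [mem_nhdsWithin_of_mem_nhds h2, self_mem_nhdsWithin] with z hz hzU
    refine (le_of_lt hz).trans ?_
    exact Finset.single_le_sum (f := fun p : ℂ × ℝ => hp (rad α n) p.1 p.2 z)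
      (fun p hp' => hp_nonneg hδ (hre p hp' z hzU)) hpF

end Pool.Agent.Helper37
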