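import Mathlib

open Set Filter Topology MeasureTheory Metric Complex
open scoped Real

namespace Pool.Agent.Helper37

/-- The average over a circle of an `ℝ`-linear functional of `w - z` vanishes. -/
lemma circleAverage_linear (L : ℂ →L[ℝ] ℝ) (z : ℂ) (ρ : ℝ) :
    Real.circleAverage (fun w => L (w - z)) z ρ = 0 := by
  have hd : DiffContOnCl ℂ (fun w : ℂ => w - z) (ball z |ρ|) := by
    apply Differentiable.diffContOnCl
    fun_prop
  have h1 := hd.circleAverage
  have h2 : CircleIntegrable (fun w : ℂ => w - z) z ρ := by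
    apply ContinuousOn.circleIntegrable'
    fun_prop
  have h3 := L.circleAverage_comp_comm h2
  rw [h1, sub_self, map_zero] at h3
  exact h3

/-- Second order bound for circle averages of smooth compactly supported functions. -/
lemma circleAverage_le_of_contDiff {φ : ℂ → ℝ} (hφ : ContDiff ℝ 2 φ) (hs : HasCompactSupport φ) :
    ∃ C : ℝ, 0 ≤ C ∧ ∀ z : ℂ, ∀ ρ > 0, Real.circleAverage φ z ρ ≤ φ z + C * ρ ^ 2 := by
  have hd : ContDiff ℝ 1 (fderiv ℝ φ) := hφ.fderiv_right (by norm_num)
  obtain ⟨C, hC⟩ := hd.lipschitzWith_of_hasCompactSupport (hs.fderiv ℝ) one_ne_zero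
  refine ⟨C, C.2, fun z ρ hρ => ?_⟩
  have hdiff : Differentiable ℝ φ := hφ.differentiable (by norm_num)
  have key : ∀ w ∈ sphere z |ρ|, φ w ≤ φ z + fderiv ℝ φ z (w - z) + C * ρ ^ 2 := by
    intro w hw
    rw [abs_of_pos hρ] at hw
    have h1 : ‖φ w - φ z - fderiv ℝ φ z (w - z)‖ ≤ (C * ρ) * ‖w - z‖ := by
      apply (convex_closedBall z ρ).norm_image_sub_le_of_norm_fderiv_le'
      · intro x _
        exact hdiff x
      · intro x hx
        have := hC.dist_le_mul x z
        rw [dist_eq_norm] at this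
        refine this.trans ?_
        exact mul_le_mul_of_nonneg_left (mem_closedBall.1 hx) C.2
      · exact mem_closedBall_self hρ.le
      · exact sphere_subset_closedBall hw
    have h2 : ‖w - z‖ = ρ := by simpa [dist_eq_norm] using hw
    rw [h2, Real.norm_eq_abs] at h1
    have h3 := (abs_le.1 h1).2
    nlinarith
  have hcφ : CircleIntegrable φ z ρ := hφ.continuous.continuousOn.circleIntegrable'
  have hlin : CircleIntegrable (fun w => fderiv ℝ φ z (w - z)) z ρ := by
    apply ContinuousOn.circleIntegrable'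
    fun_prop
  calc Real.circleAverage φ z ρ
      ≤ Real.circleAverage (fun w => (φ z + fderiv ℝ φ z (w - z)) + C * ρ ^ 2) z ρ := by
        apply Real.circleAverage_mono hcφ _ key
        exact ((circleIntegrable_const _ _ _).add hlin).add (circleIntegrable_const _ _ _)
    _ = φ z + C * ρ ^ 2 := by
        have hs1 : CircleIntegrable (fun w => φ z + fderiv ℝ φ z (w - z)) z ρ :=
          (circleIntegrable_const _ _ _).add hlin
        rw [Real.circleAverage_fun_add hs1
          (circleIntegrable_const _ _ _), Real.circleAverage_fun_add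
          (circleIntegrable_const _ _ _) hlin, circleAverage_linear, Real.circleAverage_const,
          Real.circleAverage_const]
        ring

/-- Averages of a product with a cutoff. -/
lemma circleAverage_mul_le {φ v : ℂ → ℝ} {L C A' ρ : ℝ} {z : ℂ} (hφc : Continuous φ)
    (hL : ∀ x y, |φ x - φ y| ≤ L * ‖x - y‖) (hL0 : 0 ≤ L)
    (hC : Real.circleAverage φ z ρ ≤ φ z + C * ρ ^ 2) (hρ : 0 < ρ)
    (hv : ContinuousOn v (sphere z ρ)) (hva : Real.circleAverage v z ρ = v z) (hv0 : 0 ≤ v z)
    (hA : ∀ w ∈ sphere z ρ, |v w - v z| ≤ A' * ‖w - z‖) :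
    Real.circleAverage (fun w => φ w * v w) z ρ ≤ φ z * v z + (L * A' + C * v z) * ρ ^ 2 := by
  have hvi : CircleIntegrable v z ρ := by
    apply ContinuousOn.circleIntegrable'
    rwa [abs_of_pos hρ]
  have hφi : CircleIntegrable φ z ρ := hφc.continuousOn.circleIntegrable'
  have hφv : CircleIntegrable (fun w => φ w * v w) z ρ := by
    apply ContinuousOn.circleIntegrable'
    rw [abs_of_pos hρ]
    exact hφc.continuousOn.mul hv
  have key : ∀ w ∈ sphere z |ρ|, φ w * v w ≤
      (φ z • v w + v z • φ w) + (L * A' * ρ ^ 2 - v z * φ z) := by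
    intro w hw
    rw [abs_of_pos hρ] at hw
    have hn : ‖w - z‖ = ρ := by simpa [dist_eq_norm] using hw
    have h1 := hL w z
    have h2 := hA w hw
    rw [hn] at h1 h2
    have h3 : (φ w - φ z) * (v w - v z) ≤ (L * ρ) * (A' * ρ) := by
      calc (φ w - φ z) * (v w - v z) ≤ |(φ w - φ z) * (v w - v z)| := le_abs_self _
        _ = |φ w - φ z| * |v w - v z| := abs_mul _ _
        _ ≤ (L * ρ) * (A' * ρ) := by gcongr
    simp only [smul_eq_mul]
    nlinarith
  have hi1 : CircleIntegrable (fun w => φ z • v w) z ρ := hvi.const_smul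
  have hi2 : CircleIntegrable (fun w => v z • φ w) z ρ := hφi.const_smul
  calc Real.circleAverage (fun w => φ w * v w) z ρ
      ≤ Real.circleAverage (fun w => (φ z • v w + v z • φ w) + (L * A' * ρ ^ 2 - v z * φ z)) z ρ := by
        apply Real.circleAverage_mono hφv _ key
        exact (hi1.add hi2).add (circleIntegrable_const _ _ _)
    _ = φ z * v z + v z * Real.circleAverage φ z ρ + (L * A' * ρ ^ 2 - v z * φ z) := by
        have hs1 : CircleIntegrable (fun w => φ z • v w + v z • φ w) z ρ := hi1.add hi2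
        rw [Real.circleAverage_fun_add hs1 (circleIntegrable_const _ _ _),
          Real.circleAverage_fun_add hi1 hi2, Real.circleAverage_fun_smul,
          Real.circleAverage_fun_smul, hva, Real.circleAverage_const]
        simp
    _ ≤ φ z * v z + v z * (φ z + C * ρ ^ 2) + (L * A' * ρ ^ 2 - v z * φ z) := by gcongr
    _ = φ z * v z + (L * A' + C * v z) * ρ ^ 2 := by ring

/-- The cutoff function with all the estimates that are needed. -/
lemma exists_cutoff (q : ℂ) {r : ℝ} (hr : 0 < r) :
    ∃ φ : ℂ → ℝ, Continuous φ ∧ (∀ z, 0 ≤ φ z) ∧ (∀ z, φ z ≤ 1) ∧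
      (∀ z ∈ ball q (r / 2), φ z = 1) ∧ (∀ z, 3 * r / 4 ≤ dist z q → φ z = 0) ∧
      ∃ L C : ℝ, 0 ≤ L ∧ 0 ≤ C ∧ (∀ x y, |φ x - φ y| ≤ L * ‖x - y‖) ∧
      ∀ z : ℂ, ∀ ρ > 0, Real.circleAverage φ z ρ ≤ φ z + C * ρ ^ 2 := by
  let f : ContDiffBump q := ⟨r / 2, 3 * r / 4, by linarith, by linarith⟩
  have hf2 : ContDiff ℝ 2 f := f.contDiff
  obtain ⟨C, hC0, hC⟩ := circleAverage_le_of_contDiff hf2 f.hasCompactSupport
  obtain ⟨L, hL⟩ := (f.contDiff (n := 1)).lipschitzWith_of_hasCompactSupport f.hasCompactSupport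
    one_ne_zero
  refine ⟨f, f.continuous, fun z => f.nonneg, fun z => f.le_one, ?_, ?_, L, C, L.2, hC0, ?_, hC⟩
  · intro z hz
    apply f.one_of_mem_closedBall
    exact ball_subset_closedBall hz
  · intro z hz
    exact f.zero_of_le_dist hz
  · intro x y
    have := hL.dist_le_mul x y
    rwa [Real.dist_eq, dist_eq_norm] at this

end Pool.Agent.Helper37
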