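import Mathlib

open Set Filter Topology MeasureTheory Metric Complex
open scoped Real

namespace Pool.Agent.Helper37

/-- The (positive sign) logarithmic potential of a measure. -/
noncomputable def pot (m : Measure ℂ) (z : ℂ) : ℝ := ∫ w, Real.log ‖z - w‖ ∂m

lemma measurable_log_kernel (c : ℂ) (ρ : ℝ) :
    Measurable (fun p : ℝ × ℂ => Real.log ‖circleMap c ρ p.1 - p.2‖) := by
  apply Real.measurable_log.comp
  apply Measurable.norm
  apply Measurable.sub
  · exact (continuous_circleMap c ρ).measurable.comp measurable_fst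
  · exact measurable_snd

lemma abs_log_eq (x : ℝ) : |Real.log x| = 2 * log⁺ x - Real.log x := by
  have := @Real.half_mul_log_add_log_abs x
  linarith

/-- Integral over the circle of `|log|ζ - w||`. -/
lemma integral_abs_log_circle_le {c w : ℂ} {ρ B : ℝ} (hρ : 0 < ρ) (hw : ‖w‖ ≤ B) :
    ∫ θ in Ioc 0 (2 * π), ‖Real.log ‖circleMap c ρ θ - w‖‖ ≤
      2 * π * (2 * log⁺ (‖c‖ + ρ + B) + |Real.log ρ|) := by
  have hint := circleIntegrable_log_norm_sub_const (a := w) (c := c) ρ
  rw [circleIntegrable_def, intervalIntegrable_iff_integrableOn_Ioc_of_le Real.two_pi_pos.le] at hint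
  have havg := circleAverage_log_norm_sub_const_eq_log_radius_add_posLog (a := w) (c := c) hρ.ne'
  rw [Real.circleAverage_def, smul_eq_mul, intervalIntegral.integral_of_le Real.two_pi_pos.le] at havg
  have h1 : ∫ θ in Ioc 0 (2 * π), Real.log ‖circleMap c ρ θ - w‖
      = 2 * π * (Real.log ρ + log⁺ (ρ⁻¹ * ‖c - w‖)) := by
    rw [← havg, mul_inv_cancel_left₀ Real.two_pi_pos.ne']
  have hpi : Integrable (fun θ : ℝ => 2 * log⁺ (‖c‖ + ρ + B)) (volume.restrict (Ioc 0 (2 * π))) := by
    apply integrable_const
  have h2 : ∫ θ in Ioc 0 (2 * π), ‖Real.log ‖circleMap c ρ θ - w‖‖ ≤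
      ∫ θ in Ioc 0 (2 * π), (2 * log⁺ (‖c‖ + ρ + B) - Real.log ‖circleMap c ρ θ - w‖) := by
    apply integral_mono hint.norm (hpi.sub hint)
    intro θ
    simp only [Real.norm_eq_abs]
    rw [abs_log_eq]
    have h3 : log⁺ ‖circleMap c ρ θ - w‖ ≤ log⁺ (‖c‖ + ρ + B) := by
      apply Real.posLog_le_posLog (norm_nonneg _)
      calc ‖circleMap c ρ θ - w‖ ≤ ‖circleMap c ρ θ‖ + ‖w‖ := norm_sub_le _ _
        _ ≤ (‖c‖ + ρ) + B := by
          gcongr
          calc ‖circleMap c ρ θ‖ = ‖c + (circleMap c ρ θ - c)‖ := by congr 1; ring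
            _ ≤ ‖c‖ + ‖circleMap c ρ θ - c‖ := norm_add_le _ _
            _ = ‖c‖ + ρ := by simp [abs_of_pos hρ]
    rw [Pi.sub_apply]
    linarith
  rw [integral_sub hpi hint, h1] at h2
  simp only [integral_const, measureReal_restrict_apply_univ, Real.volume_real_Ioc,
    sub_zero, smul_eq_mul] at h2
  rw [max_eq_left Real.two_pi_pos.le] at h2
  have h4 : -Real.log ρ ≤ |Real.log ρ| := neg_le_abs _
  have h5 : 0 ≤ log⁺ (ρ⁻¹ * ‖c - w‖) := Real.posLog_nonneg
  nlinarith [Real.two_pi_pos]

/-- Circle averages of logarithmic potentials of compactly supported finite measures. -/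
lemma circleAverage_pot {m : Measure ℂ} [IsFiniteMeasure m] {B : ℝ}
    (hB : ∀ᵐ w ∂m, ‖w‖ ≤ B) (c : ℂ) {ρ : ℝ} (hρ : 0 < ρ) :
    Real.circleAverage (pot m) c ρ = ∫ w, (Real.log ρ + log⁺ (ρ⁻¹ * ‖c - w‖)) ∂m := by
  have hmeas := measurable_log_kernel c ρ
  have hint : Integrable (Function.uncurry fun (θ : ℝ) (w : ℂ) =>
      Real.log ‖circleMap c ρ θ - w‖) ((volume.restrict (Ioc 0 (2 * π))).prod m) := by
    have hms : AEStronglyMeasurable (Function.uncurry fun (θ : ℝ) (w : ℂ) =>
        Real.log ‖circleMap c ρ θ - w‖) ((volume.restrict (Ioc 0 (2 * π))).prod m) :=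
      hmeas.aestronglyMeasurable
    rw [integrable_prod_iff' hms]
    constructor
    · filter_upwards with w
      have hint := circleIntegrable_log_norm_sub_const (a := w) (c := c) ρ
      rwa [circleIntegrable_def,
        intervalIntegrable_iff_integrableOn_Ioc_of_le Real.two_pi_pos.le] at hint
    · apply Integrable.mono' (g := fun _ => 2 * π * (2 * log⁺ (‖c‖ + ρ + B) + |Real.log ρ|))
        (integrable_const _)
      · exact ((hmeas.norm.comp measurable_swap).stronglyMeasurable.integral_prod_right').aestronglyMeasurable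
      · filter_upwards [hB] with w hw
        rw [Real.norm_eq_abs, abs_of_nonneg (integral_nonneg (fun _ => norm_nonneg _))]
        exact integral_abs_log_circle_le hρ hw
  rw [Real.circleAverage_def, smul_eq_mul, intervalIntegral.integral_of_le Real.two_pi_pos.le]
  unfold pot
  rw [integral_integral_swap hint]
  rw [← integral_const_mul]
  apply integral_congr_ae
  filter_upwards with w
  rw [← circleAverage_log_norm_sub_const_eq_log_radius_add_posLog (a := w) (c := c) hρ.ne',
    Real.circleAverage_def, smul_eq_mul, intervalIntegral.integral_of_le Real.two_pi_pos.le]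

lemma integrableOn_inv_norm : IntegrableOn (fun w : ℂ => ‖w‖⁻¹) (ball (0 : ℂ) 1) := by
  rw [integrableOn_fun_norm_addHaar (μ := (volume : Measure ℂ))
    (f := fun y : ℝ => y⁻¹)]
  have h : IntegrableOn (fun _ : ℝ => (1 : ℝ)) (Ioo 0 1) := by
    exact integrableOn_const (by simp) (by simp)
  apply h.congr_fun _ measurableSet_Ioo
  intro y hy
  have : y ≠ 0 := hy.1.ne'
  simp [this]

/-- The truncated Newtonian kernel. -/
noncomputable def nker (w : ℂ) : ℝ := (ball (0 : ℂ) 1).indicator (fun w => ‖w‖⁻¹) w

lemma nker_integrable : Integrable nker := by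
  unfold nker
  rw [integrable_indicator_iff measurableSet_ball]
  exact integrableOn_inv_norm

lemma inv_norm_le_nker (z w : ℂ) : ‖z - w‖⁻¹ ≤ nker (z - w) + 1 := by
  unfold nker
  by_cases h : z - w ∈ ball (0 : ℂ) 1
  · rw [indicator_of_mem h]; linarith
  · rw [indicator_of_notMem h, zero_add]
    rw [mem_ball_zero_iff, not_lt] at h
    exact inv_le_one_of_one_le₀ h

lemma nker_nonneg (w : ℂ) : 0 ≤ nker w := by
  unfold nker
  apply indicator_nonneg
  intro _ _
  positivity

lemma integrable_nker_sub (z : ℂ) : Integrable (fun w => nker (z - w)) :=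
  nker_integrable.comp_sub_left z

lemma integrableOn_inv_norm_sub (z q : ℂ) (r : ℝ) :
    IntegrableOn (fun w => ‖z - w‖⁻¹) (ball q r) := by
  have hfin : volume (ball q r) ≠ ⊤ := measure_ball_lt_top.ne
  have h1 : IntegrableOn (fun w => nker (z - w) + 1) (ball q r) :=
    (integrable_nker_sub z).integrableOn.add (integrableOn_const hfin)
  apply Integrable.mono' h1
  · apply Measurable.aestronglyMeasurable
    fun_prop
  · filter_upwards with w
    rw [Real.norm_eq_abs, abs_of_nonneg (by positivity)]
    exact inv_norm_le_nker z w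

/-- Uniform bound for the Newtonian potential of a bounded set. -/
lemma integral_inv_norm_sub_le (z q : ℂ) (r : ℝ) :
    ∫ w in ball q r, ‖z - w‖⁻¹ ≤ (∫ w, nker w) + volume.real (ball q r) := by
  have hfin : volume (ball q r) ≠ ⊤ := measure_ball_lt_top.ne
  have h1 : IntegrableOn (fun w => nker (z - w) + 1) (ball q r) :=
    (integrable_nker_sub z).integrableOn.add (integrableOn_const hfin)
  calc ∫ w in ball q r, ‖z - w‖⁻¹ ≤ ∫ w in ball q r, (nker (z - w) + 1) :=
        integral_mono (integrableOn_inv_norm_sub z q r) h1 (inv_norm_le_nker z)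
    _ = (∫ w in ball q r, nker (z - w)) + ∫ w in ball q r, (1 : ℝ) :=
        integral_add (integrable_nker_sub z).integrableOn (integrableOn_const hfin)
    _ ≤ (∫ w, nker (z - w)) + volume.real (ball q r) := by
        apply add_le_add
        · apply setIntegral_le_integral (integrable_nker_sub z)
          filter_upwards with w
          exact nker_nonneg _
        · simp [Measure.real]
    _ = (∫ w, nker w) + volume.real (ball q r) := by
        rw [integral_sub_left_eq_self nker volume z]

lemma abs_log_sub_log_le {a b : ℝ} (ha : 0 < a) (hb : 0 < b) :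
    |Real.log a - Real.log b| ≤ |a - b| * (a⁻¹ + b⁻¹) := by
  have key : ∀ {a b : ℝ}, 0 < a → 0 < b → Real.log a - Real.log b ≤ |a - b| * (a⁻¹ + b⁻¹) := by
    intro a b ha hb
    have h1 : Real.log a - Real.log b ≤ a / b - 1 := by
      rw [← Real.log_div ha.ne' hb.ne']
      exact Real.log_le_sub_one_of_pos (div_pos ha hb)
    have h2 : a / b - 1 = (a - b) * b⁻¹ := by field_simp
    rw [h2] at h1
    have h3 : (a - b) * b⁻¹ ≤ |a - b| * b⁻¹ :=
      mul_le_mul_of_nonneg_right (le_abs_self _) (by positivity)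
    have h4 : 0 ≤ |a - b| * a⁻¹ := by positivity
    linarith
  rw [abs_le]
  constructor
  · have := key hb ha
    rw [abs_sub_comm b a, add_comm b⁻¹] at this
    linarith
  · exact key ha hb

lemma abs_log_le_add_inv {x : ℝ} (hx : 0 ≤ x) : |Real.log x| ≤ x + x⁻¹ := by
  rcases hx.eq_or_lt with rfl | hx
  · simp
  · rw [abs_le]
    have h1 := Real.log_le_sub_one_of_pos hx
    have h2 := Real.log_le_sub_one_of_pos (inv_pos.2 hx)
    rw [Real.log_inv] at h2
    have h3 : 0 < x⁻¹ := inv_pos.2 hx
    constructor <;> linarith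

lemma integrableOn_log_ball (z q : ℂ) (r : ℝ) :
    IntegrableOn (fun w => Real.log ‖z - w‖) (ball q r) := by
  have hfin : volume (ball q r) ≠ ⊤ := measure_ball_lt_top.ne
  have h1 : IntegrableOn (fun w => (‖z‖ + ‖q‖ + r) + ‖z - w‖⁻¹) (ball q r) :=
    (integrableOn_const hfin).add (integrableOn_inv_norm_sub z q r)
  apply Integrable.mono' h1
  · apply Measurable.aestronglyMeasurable
    fun_prop
  · rw [ae_restrict_iff' measurableSet_ball]
    filter_upwards with w hw
    rw [Real.norm_eq_abs]
    refine (abs_log_le_add_inv (norm_nonneg _)).trans ?_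
    have h2 : ‖z - w‖ ≤ ‖z‖ + ‖q‖ + r := by
      have h3 : ‖w‖ ≤ ‖q‖ + r := by
        have : ‖w - q‖ < r := by simpa [dist_eq_norm] using hw
        calc ‖w‖ = ‖q + (w - q)‖ := by congr 1; ring
          _ ≤ ‖q‖ + ‖w - q‖ := norm_add_le _ _
          _ ≤ ‖q‖ + r := by linarith
      calc ‖z - w‖ ≤ ‖z‖ + ‖w‖ := norm_sub_le _ _
        _ ≤ _ := by linarith
    linarith

/-- The logarithmic potential of Lebesgue measure on a bounded set is continuous. -/
lemma continuous_pot_restrict {S : Set ℂ} {q : ℂ} {r : ℝ} (hS : S ⊆ ball q r) :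
    Continuous (pot (volume.restrict S)) := by
  set C := (∫ w, nker w) + volume.real (ball q r) with hC
  have hC0 : 0 ≤ C := add_nonneg (integral_nonneg nker_nonneg) measureReal_nonneg
  have hlip : LipschitzWith (Real.toNNReal (2 * C)) (pot (volume.restrict S)) := by
    apply LipschitzWith.of_dist_le_mul
    intro z z'
    rw [Real.dist_eq, Real.coe_toNNReal _ (by positivity)]
    have hz : IntegrableOn (fun w => Real.log ‖z - w‖) S := (integrableOn_log_ball z q r).mono_set hS
    have hz' : IntegrableOn (fun w => Real.log ‖z' - w‖) S :=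
      (integrableOn_log_ball z' q r).mono_set hS
    have hi : IntegrableOn (fun w => ‖z - w‖⁻¹) (ball q r) := integrableOn_inv_norm_sub z q r
    have hi' : IntegrableOn (fun w => ‖z' - w‖⁻¹) (ball q r) := integrableOn_inv_norm_sub z' q r
    unfold pot
    rw [← integral_sub hz hz']
    calc |∫ w in S, (Real.log ‖z - w‖ - Real.log ‖z' - w‖)|
        ≤ ∫ w in S, |Real.log ‖z - w‖ - Real.log ‖z' - w‖| := abs_integral_le_integral_abs
      _ ≤ ∫ w in S, dist z z' * (‖z - w‖⁻¹ + ‖z' - w‖⁻¹) := by
          apply integral_mono_ae (hz.sub hz').abs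
            (((hi.mono_set hS).add (hi'.mono_set hS)).const_mul _)
          have hne : ∀ a : ℂ, ∀ᵐ w ∂(volume.restrict S), w ≠ a := by
            intro a
            apply ae_restrict_of_ae
            rw [ae_iff]
            simp
          filter_upwards [hne z, hne z'] with w hw hw'
          have h1 : 0 < ‖z - w‖ := by rw [norm_pos_iff, sub_ne_zero]; exact hw.symm
          have h2 : 0 < ‖z' - w‖ := by rw [norm_pos_iff, sub_ne_zero]; exact hw'.symm
          refine (abs_log_sub_log_le h1 h2).trans ?_
          apply mul_le_mul_of_nonneg_right _ (by positivity)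
          rw [dist_eq_norm]
          calc |‖z - w‖ - ‖z' - w‖| ≤ ‖(z - w) - (z' - w)‖ := abs_norm_sub_norm_le _ _
            _ = ‖z - z'‖ := by congr 1; ring
      _ = dist z z' * ((∫ w in S, ‖z - w‖⁻¹) + ∫ w in S, ‖z' - w‖⁻¹) := by
          rw [integral_const_mul, integral_add (hi.mono_set hS) (hi'.mono_set hS)]
      _ ≤ dist z z' * (C + C) := by
          have hnn : ∀ a : ℂ, 0 ≤ᵐ[volume.restrict (ball q r)] (fun w => ‖a - w‖⁻¹) := by
            intro a
            filter_upwards with w
            simp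
          gcongr
          · exact (setIntegral_mono_set hi (hnn z) (LE.le.eventuallyLE hS)).trans
              (integral_inv_norm_sub_le z q r)
          · exact (setIntegral_mono_set hi' (hnn z') (LE.le.eventuallyLE hS)).trans
              (integral_inv_norm_sub_le z' q r)
      _ = 2 * C * dist z z' := by ring
  exact hlip.continuous

end Pool.Agent.Helper37
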