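import Mathlib
import Pool.Agent.Helper37.Potential

open Set Filter Topology MeasureTheory Metric Complex
open scoped Real

namespace Pool.Agent.Helper37

/-- Growth of potentials at infinity. -/
lemma tendsto_pot_sub_log {m : Measure ℂ} [IsFiniteMeasure m] {B : ℝ} (hB0 : 0 < B)
    (hB : ∀ᵐ w ∂m, ‖w‖ ≤ B) (hint : ∀ z, Integrable (fun w => Real.log ‖z - w‖) m ∨ ‖z‖ < 2 * B) :
    Tendsto (fun z => pot m z - m.real univ * Real.log ‖z‖) (cocompact ℂ) (𝓝 0) := by
  have hlim : Tendsto (fun z : ℂ => m.real univ * (3 * B) * ‖z‖⁻¹) (cocompact ℂ) (𝓝 0) := by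
    have h1 : Tendsto (fun z : ℂ => ‖z‖⁻¹) (cocompact ℂ) (𝓝 0) :=
      tendsto_inv_atTop_zero.comp tendsto_norm_cocompact_atTop
    simpa using h1.const_mul (m.real univ * (3 * B))
  apply squeeze_zero_norm' _ hlim
  have hev : ∀ᶠ z : ℂ in cocompact ℂ, 2 * B < ‖z‖ :=
    tendsto_norm_cocompact_atTop.eventually_gt_atTop (2 * B)
  filter_upwards [hev] with z hz
  have hz0 : 0 < ‖z‖ := by linarith
  have hi : Integrable (fun w => Real.log ‖z - w‖) m := by
    rcases hint z with h | h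
    · exact h
    · linarith
  have hconst : Integrable (fun _ : ℂ => Real.log ‖z‖) m := integrable_const _
  have heq : pot m z - m.real univ * Real.log ‖z‖ = ∫ w, (Real.log ‖z - w‖ - Real.log ‖z‖) ∂m := by
    rw [integral_sub hi hconst]
    simp [pot]
  rw [heq]
  have hbd : ∀ᵐ w ∂m, ‖Real.log ‖z - w‖ - Real.log ‖z‖‖ ≤ 3 * B * ‖z‖⁻¹ := by
    filter_upwards [hB] with w hw
    have h1 : ‖z‖ / 2 ≤ ‖z - w‖ := by
      have := norm_sub_norm_le z w
      linarith
    have h2 : 0 < ‖z - w‖ := by linarith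
    rw [Real.norm_eq_abs]
    refine (abs_log_sub_log_le h2 hz0).trans ?_
    have h3 : |‖z - w‖ - ‖z‖| ≤ B := by
      calc |‖z - w‖ - ‖z‖| ≤ ‖(z - w) - z‖ := abs_norm_sub_norm_le _ _
        _ = ‖w‖ := by rw [sub_sub_cancel_left, norm_neg]
        _ ≤ B := hw
    have h4 : ‖z - w‖⁻¹ ≤ 2 * ‖z‖⁻¹ := by
      have h5 : ‖z - w‖⁻¹ ≤ (‖z‖ / 2)⁻¹ := inv_anti₀ (by linarith) h1
      rw [inv_div] at h5
      calc ‖z - w‖⁻¹ ≤ 2 / ‖z‖ := h5
        _ = 2 * ‖z‖⁻¹ := by ring
    calc |‖z - w‖ - ‖z‖| * (‖z - w‖⁻¹ + ‖z‖⁻¹) ≤ B * (2 * ‖z‖⁻¹ + ‖z‖⁻¹) := by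
          gcongr
      _ = 3 * B * ‖z‖⁻¹ := by ring
  calc ‖∫ w, (Real.log ‖z - w‖ - Real.log ‖z‖) ∂m‖ ≤ 3 * B * ‖z‖⁻¹ * m.real univ :=
        norm_integral_le_of_norm_le_const hbd
    _ = m.real univ * (3 * B) * ‖z‖⁻¹ := by ring

lemma integrable_log_of_dist {m : Measure ℂ} [IsFiniteMeasure m] {B d : ℝ} {z : ℂ} (hd : 0 < d)
    (hB : ∀ᵐ w ∂m, ‖w‖ ≤ B) (hz : ∀ᵐ w ∂m, d ≤ ‖z - w‖) :
    Integrable (fun w => Real.log ‖z - w‖) m := by
  apply Integrable.mono' (g := fun _ => (‖z‖ + B) + d⁻¹) (integrable_const _)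
  · apply Measurable.aestronglyMeasurable
    fun_prop
  · filter_upwards [hB, hz] with w hw hw'
    rw [Real.norm_eq_abs]
    refine (abs_log_le_add_inv (norm_nonneg _)).trans ?_
    have h1 : ‖z - w‖ ≤ ‖z‖ + B := (norm_sub_le _ _).trans (by linarith)
    have h2 : ‖z - w‖⁻¹ ≤ d⁻¹ := inv_anti₀ hd hw'
    linarith

/-- Potentials are continuous off the support. -/
lemma continuousAt_pot {m : Measure ℂ} [IsFiniteMeasure m] {B d : ℝ} {z₀ : ℂ} (hd : 0 < d)
    (hB : ∀ᵐ w ∂m, ‖w‖ ≤ B) (hz : ∀ᵐ w ∂m, d ≤ ‖z₀ - w‖) : ContinuousAt (pot m) z₀ := by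
  unfold pot
  apply continuousAt_of_dominated (bound := fun _ => (‖z₀‖ + d + B) + (d / 2)⁻¹)
  · filter_upwards with z
    apply Measurable.aestronglyMeasurable
    fun_prop
  · filter_upwards [ball_mem_nhds z₀ (half_pos hd)] with z hz'
    filter_upwards [hB, hz] with w hw hw'
    rw [Real.norm_eq_abs]
    refine (abs_log_le_add_inv (norm_nonneg _)).trans ?_
    have h0 : ‖z - z₀‖ < d / 2 := by simpa [dist_eq_norm] using hz'
    have h1 : ‖z‖ ≤ ‖z₀‖ + d := by
      calc ‖z‖ = ‖z₀ + (z - z₀)‖ := by congr 1; ring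
        _ ≤ ‖z₀‖ + ‖z - z₀‖ := norm_add_le _ _
        _ ≤ ‖z₀‖ + d := by linarith
    have h2 : ‖z - w‖ ≤ ‖z₀‖ + d + B := (norm_sub_le _ _).trans (by linarith)
    have h3 : d / 2 ≤ ‖z - w‖ := by
      have : ‖z₀ - w‖ ≤ ‖z - w‖ + ‖z - z₀‖ := by
        calc ‖z₀ - w‖ = ‖(z - w) - (z - z₀)‖ := by congr 1; ring
          _ ≤ _ := norm_sub_le _ _
      linarith
    have h4 : ‖z - w‖⁻¹ ≤ (d / 2)⁻¹ := inv_anti₀ (half_pos hd) h3
    linarith
  · exact integrable_const _
  · filter_upwards [hz] with w hw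
    have : ‖z₀ - w‖ ≠ 0 := by linarith
    fun_prop (disch := assumption)

/-- Mean value property off the support. -/
lemma circleAverage_pot_of_far {m : Measure ℂ} [IsFiniteMeasure m] {B ρ : ℝ} {z : ℂ} (hρ : 0 < ρ)
    (hB : ∀ᵐ w ∂m, ‖w‖ ≤ B) (hz : ∀ᵐ w ∂m, ρ ≤ ‖z - w‖) :
    Real.circleAverage (pot m) z ρ = pot m z := by
  rw [circleAverage_pot hB z hρ]
  unfold pot
  apply integral_congr_ae
  filter_upwards [hz] with w hw
  have h1 : 0 < ‖z - w‖ := by linarith
  have h2 : 1 ≤ ρ⁻¹ * ‖z - w‖ := by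
    rw [inv_mul_eq_div, one_le_div hρ]; exact hw
  rw [Real.posLog_eq_log (by rwa [abs_of_nonneg (by positivity)]),
    Real.log_mul (by positivity) h1.ne', Real.log_inv]
  ring

/-- Circle averages around large circles. -/
lemma circleAverage_pot_of_large {m : Measure ℂ} [IsFiniteMeasure m] {B ρ : ℝ} (hρ : 0 < ρ)
    (hBρ : B ≤ ρ) (hB : ∀ᵐ w ∂m, ‖w‖ ≤ B) :
    Real.circleAverage (pot m) 0 ρ = m.real univ * Real.log ρ := by
  rw [circleAverage_pot hB 0 hρ]
  have : ∀ᵐ w ∂m, Real.log ρ + log⁺ (ρ⁻¹ * ‖0 - w‖) = Real.log ρ := by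
    filter_upwards [hB] with w hw
    rw [add_eq_left, Real.posLog_eq_zero_iff, abs_of_nonneg (by positivity), zero_sub, norm_neg,
      inv_mul_eq_div, div_le_one hρ]
    linarith
  rw [integral_congr_ae this]
  simp

lemma kernel_gap {ρ s : ℝ} (hρ : 0 < ρ) (hs : 0 ≤ s) :
    Real.log s ≤ Real.log ρ + log⁺ (ρ⁻¹ * s) ∨ s = 0 := by
  rcases hs.eq_or_lt with h | h
  · right; exact h.symm
  · left
    have h1 : Real.log (ρ⁻¹ * s) ≤ log⁺ (ρ⁻¹ * s) := by
      rw [Real.posLog_apply]; exact le_max_right _ _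
    rw [Real.log_mul (by positivity) h.ne', Real.log_inv] at h1
    linarith

/-- Strict super-mean value inequality for potentials of Lebesgue measure. -/
lemma circleAverage_pot_restrict_ge {S : Set ℂ} {q : ℂ} {r ρ : ℝ} (hS : S ⊆ ball q r)
    (hSm : MeasurableSet S) (z : ℂ) (hρ : 0 < ρ) {κ : ℝ} (hκ : κ = 0 ∨ (κ = 1 ∧ ball z ρ ⊆ S)) :
    pot (volume.restrict S) z + κ * (π / 4 * Real.log 2) * ρ ^ 2 ≤
      Real.circleAverage (pot (volume.restrict S)) z ρ := by
  have hfin : volume S ≠ ⊤ := ((measure_mono hS).trans_lt measure_ball_lt_top).ne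
  have : IsFiniteMeasure (volume.restrict S) := ⟨by simpa using hfin.lt_top⟩
  have hB : ∀ᵐ w ∂(volume.restrict S), ‖w‖ ≤ ‖q‖ + r := by
    rw [ae_restrict_iff' hSm]
    filter_upwards with w hw
    have : ‖w - q‖ < r := by simpa [dist_eq_norm] using hS hw
    calc ‖w‖ = ‖q + (w - q)‖ := by congr 1; ring
      _ ≤ ‖q‖ + ‖w - q‖ := norm_add_le _ _
      _ ≤ ‖q‖ + r := by linarith
  rw [circleAverage_pot hB z hρ]
  have hi1 : IntegrableOn (fun w => Real.log ‖z - w‖) S := (integrableOn_log_ball z q r).mono_set hS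
  have hi2 : IntegrableOn (fun w => Real.log ρ + log⁺ (ρ⁻¹ * ‖z - w‖)) S := by
    apply Integrable.mono' (g := fun _ => |Real.log ρ| + log⁺ (ρ⁻¹ * (‖z‖ + (‖q‖ + r))))
      (integrable_const _)
    · apply Measurable.aestronglyMeasurable
      fun_prop
    · filter_upwards [hB] with w hw
      rw [Real.norm_eq_abs]
      refine (abs_add_le _ _).trans ?_
      rw [abs_of_nonneg (Real.posLog_nonneg (x := ρ⁻¹ * ‖z - w‖))]
      gcongr
      exact (norm_sub_le _ _).trans (by linarith)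
  have hne : ∀ᵐ w ∂(volume.restrict S), w ≠ z := by
    apply ae_restrict_of_ae
    rw [ae_iff]
    simp
  -- pointwise lower bound with an indicator
  have hind : IntegrableOn (fun w => (ball z (ρ / 2)).indicator (fun _ => κ * Real.log 2) w) S := by
    apply Integrable.indicator _ measurableSet_ball
    exact integrable_const _
  have hmono : ∫ w in S, (Real.log ‖z - w‖ + (ball z (ρ / 2)).indicator (fun _ => κ * Real.log 2) w) ≤
      ∫ w in S, (Real.log ρ + log⁺ (ρ⁻¹ * ‖z - w‖)) := by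
    apply integral_mono_ae (hi1.add hind) hi2
    filter_upwards [hne] with w hw
    have hpos : 0 < ‖z - w‖ := by rw [norm_pos_iff, sub_ne_zero]; exact hw.symm
    have hg : Real.log ‖z - w‖ ≤ Real.log ρ + log⁺ (ρ⁻¹ * ‖z - w‖) := by
      rcases kernel_gap hρ (norm_nonneg (z - w)) with h | h
      · exact h
      · exact absurd h hpos.ne'
    show Real.log ‖z - w‖ + (ball z (ρ / 2)).indicator (fun _ => κ * Real.log 2) w ≤ _
    by_cases hb : w ∈ ball z (ρ / 2)
    · rw [indicator_of_mem hb]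
      have h1 : ‖z - w‖ ≤ ρ / 2 := by
        have := mem_ball'.1 hb
        rw [dist_eq_norm] at this
        exact this.le
      have h2 : Real.log ‖z - w‖ ≤ Real.log ρ - Real.log 2 := by
        rw [← Real.log_div hρ.ne' two_ne_zero]
        exact Real.log_le_log hpos h1
      have h3 : 0 ≤ log⁺ (ρ⁻¹ * ‖z - w‖) := Real.posLog_nonneg
      have h4 : κ * Real.log 2 ≤ Real.log 2 := by
        have := Real.log_pos one_lt_two
        rcases hκ with rfl | ⟨rfl, _⟩ <;> linarith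
      linarith
    · rw [indicator_of_notMem hb, add_zero]
      exact hg
  rw [integral_add hi1 hind] at hmono
  refine le_trans ?_ hmono
  unfold pot
  gcongr
  rcases hκ with rfl | ⟨rfl, hsub⟩
  · simp
  · rw [integral_indicator measurableSet_ball, Measure.restrict_restrict measurableSet_ball]
    have hsub2 : ball z (ρ / 2) ∩ S = ball z (ρ / 2) := by
      apply inter_eq_left.2
      exact (ball_subset_ball (by linarith)).trans hsub
    rw [hsub2]
    have hv : volume.real (ball z (ρ / 2)) = π * (ρ / 2) ^ 2 := by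
      rw [Measure.real, Complex.volume_ball]
      simp only [ENNReal.toReal_mul, ENNReal.toReal_pow, ENNReal.coe_toReal, NNReal.coe_real_pi]
      rw [ENNReal.toReal_ofReal (by positivity)]
      ring
    simp only [integral_const, measureReal_restrict_apply_univ, smul_eq_mul, one_mul]
    rw [hv]
    apply le_of_eq
    ring

end Pool.Agent.Helper37
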