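import Mathlib
import Pool.Agent.Helper37.Green

open Set Filter Topology MeasureTheory Metric Complex
open scoped Real

namespace Pool.Agent.Helper37

/-- A probability measure on the complement of `Df` whose logarithmic potential is bounded on
`Df`. -/
structure NuData (Df : Set ℂ) where
  ν : Measure ℂ
  K : Set ℂ
  B : ℝ
  A : ℝ
  prob : IsProbabilityMeasure ν
  compact : IsCompact K
  supp : ν Kᶜ = 0
  disj : Disjoint K Df
  Bpos : 0 < B
  bound : ∀ z ∈ K, ‖z‖ ≤ B
  A_nonneg : 0 ≤ A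
  hpot : ∀ z ∈ Df, ∫ w, log⁺ ‖z - w‖⁻¹ ∂ν ≤ A

attribute [instance] NuData.prob

namespace NuData

variable {Df : Set ℂ} (N : NuData Df)

lemma ae_mem : ∀ᵐ w ∂N.ν, w ∈ N.K := by
  rw [ae_iff]; exact N.supp

lemma ae_bound : ∀ᵐ w ∂N.ν, ‖w‖ ≤ N.B := by
  filter_upwards [N.ae_mem] with w hw using N.bound w hw

lemma exists_dist {z : ℂ} (hz : z ∈ Df) : ∃ d > 0, ∀ᵐ w ∂N.ν, d ≤ ‖z - w‖ := by
  have hz' : z ∉ N.K := fun h => (disjoint_left.1 N.disj) h hz
  have hne : N.K.Nonempty := by
    by_contra h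
    rw [not_nonempty_iff_eq_empty] at h
    have := N.supp
    rw [h, compl_empty, measure_univ] at this
    exact one_ne_zero this
  have hpos := (N.compact.isClosed.notMem_iff_infDist_pos hne).1 hz'
  refine ⟨infDist z N.K, hpos, ?_⟩
  filter_upwards [N.ae_mem] with w hw
  rw [← dist_eq_norm]
  exact infDist_le_dist_of_mem hw

/-- additive constant making the kernel nonnegative -/
noncomputable def A2 (q : ℂ) (r : ℝ) : ℝ := N.A + Real.log 2 + log⁺ (N.B + (‖q‖ + r))

lemma A2_nonneg (q : ℂ) (r : ℝ) : 0 ≤ N.A2 q r := by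
  unfold A2
  have h1 := N.A_nonneg
  have h2 := Real.log_nonneg (by norm_num : (1 : ℝ) ≤ 2)
  have h3 : 0 ≤ log⁺ (N.B + (‖q‖ + r)) := Real.posLog_nonneg
  linarith

/-- Green-type kernel -/
noncomputable def ker (q : ℂ) (r : ℝ) (z w : ℂ) : ℝ := pot N.ν z + N.A2 q r - Real.log ‖z - w‖

/-- Green-type potential of Lebesgue measure on `S`. -/
noncomputable def gT (q : ℂ) (r : ℝ) (S : Set ℂ) (z : ℂ) : ℝ :=
  volume.real S * (pot N.ν z + N.A2 q r) - pot (volume.restrict S) z

lemma norm_le_of_mem_ball {q w : ℂ} {r : ℝ} (hw : w ∈ ball q r) : ‖w‖ ≤ ‖q‖ + r := by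
  have : ‖w - q‖ < r := by simpa [dist_eq_norm] using hw
  calc ‖w‖ = ‖q + (w - q)‖ := by congr 1; ring
    _ ≤ ‖q‖ + ‖w - q‖ := norm_add_le _ _
    _ ≤ ‖q‖ + r := by linarith

lemma ker_nonneg {q : ℂ} {r : ℝ} {z w : ℂ} (hz : z ∈ Df) (hw : w ∈ ball q r) :
    0 ≤ N.ker q r z w := by
  obtain ⟨d, hd, hzd⟩ := N.exists_dist hz
  have hi : Integrable (fun w => Real.log ‖z - w‖) N.ν := integrable_log_of_dist hd N.ae_bound hzd
  have hi2 : Integrable (fun w => log⁺ ‖z - w‖⁻¹) N.ν := by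
    apply Integrable.mono' (g := fun _ => log⁺ d⁻¹) (integrable_const _)
    · apply Measurable.aestronglyMeasurable
      fun_prop
    · filter_upwards [hzd] with w hw
      rw [Real.norm_eq_abs, abs_of_nonneg Real.posLog_nonneg]
      apply Real.posLog_le_posLog (by positivity)
      exact inv_anti₀ hd hw
  have h1 : ∀ᵐ ζ ∂N.ν, Real.log ‖z - w‖ - Real.log 2 - log⁺ (N.B + (‖q‖ + r)) - log⁺ ‖z - ζ‖⁻¹
      ≤ Real.log ‖z - ζ‖ := by
    filter_upwards [N.ae_bound] with ζ hζ
    have h2 : Real.log ‖z - w‖ ≤ log⁺ ‖z - w‖ := by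
      rw [Real.posLog_apply]; exact le_max_right _ _
    have h3 : log⁺ ‖z - w‖ ≤ log⁺ (‖z - ζ‖ + ‖ζ - w‖) := by
      apply Real.posLog_le_posLog (norm_nonneg _)
      calc ‖z - w‖ = ‖(z - ζ) + (ζ - w)‖ := by congr 1; ring
        _ ≤ _ := norm_add_le _ _
    have h4 : log⁺ (‖z - ζ‖ + ‖ζ - w‖) ≤ Real.log 2 + log⁺ ‖z - ζ‖ + log⁺ ‖ζ - w‖ :=
      Real.posLog_add
    have h5 : log⁺ ‖ζ - w‖ ≤ log⁺ (N.B + (‖q‖ + r)) := by
      apply Real.posLog_le_posLog (norm_nonneg _)
      exact (norm_sub_le _ _).trans (add_le_add hζ (norm_le_of_mem_ball hw))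
    have h6 : log⁺ ‖z - ζ‖ - log⁺ ‖z - ζ‖⁻¹ = Real.log ‖z - ζ‖ := Real.posLog_sub_posLog_inv
    linarith
  have h2 : ∫ ζ, (Real.log ‖z - w‖ - Real.log 2 - log⁺ (N.B + (‖q‖ + r)) - log⁺ ‖z - ζ‖⁻¹) ∂N.ν
      ≤ ∫ ζ, Real.log ‖z - ζ‖ ∂N.ν := by
    apply integral_mono_ae _ hi h1
    exact (integrable_const _).sub hi2
  rw [integral_sub (integrable_const _) hi2] at h2
  simp only [integral_const, probReal_univ, smul_eq_mul, one_mul] at h2
  have h3 := N.hpot z hz
  unfold ker A2 pot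
  linarith

lemma ker_integrableOn {q : ℂ} {r : ℝ} (z : ℂ) : IntegrableOn (N.ker q r z) (ball q r) := by
  have hfin : volume (ball q r) ≠ ⊤ := measure_ball_lt_top.ne
  unfold ker
  exact (integrableOn_const hfin).sub (integrableOn_log_ball z q r)

lemma gT_eq {q : ℂ} {r : ℝ} {S : Set ℂ} (hS : S ⊆ ball q r) (z : ℂ) :
    N.gT q r S z = ∫ w in S, N.ker q r z w := by
  have hfin : volume S ≠ ⊤ := ((measure_mono hS).trans_lt measure_ball_lt_top).ne
  have h1 : Integrable (fun _ : ℂ => pot N.ν z + N.A2 q r) (volume.restrict S) :=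
    integrableOn_const hfin
  have h2 : Integrable (fun w : ℂ => Real.log ‖z - w‖) (volume.restrict S) :=
    (integrableOn_log_ball z q r).mono_set hS
  show volume.real S * (pot N.ν z + N.A2 q r) - (∫ w in S, Real.log ‖z - w‖)
    = ∫ w in S, (pot N.ν z + N.A2 q r - Real.log ‖z - w‖)
  rw [integral_sub h1 h2]
  simp

lemma gT_nonneg {q : ℂ} {r : ℝ} {S : Set ℂ} (hS : S ⊆ ball q r) (hSm : MeasurableSet S) {z : ℂ}
    (hz : z ∈ Df) : 0 ≤ N.gT q r S z := by
  rw [N.gT_eq hS]
  apply setIntegral_nonneg hSm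
  intro w hw
  exact N.ker_nonneg hz (hS hw)

lemma gT_mono {q : ℂ} {r : ℝ} {S : Set ℂ} (hS : S ⊆ ball q r) {z : ℂ}
    (hz : z ∈ Df) : N.gT q r S z ≤ N.gT q r (ball q r) z := by
  rw [N.gT_eq hS, N.gT_eq subset_rfl]
  apply setIntegral_mono_set (N.ker_integrableOn z) _ (LE.le.eventuallyLE hS)
  rw [EventuallyLE, ae_restrict_iff' measurableSet_ball]
  filter_upwards with w hw
  exact N.ker_nonneg hz hw

/-- `gT` is small when the volume of the set is small. -/
lemma gT_small {q : ℂ} {r : ℝ} {z : ℂ} (hz : z ∈ Df) {ε : ℝ} (hε : 0 < ε) :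
    ∃ δ : ENNReal, 0 < δ ∧ ∀ S ⊆ ball q r, MeasurableSet S → volume S < δ → N.gT q r S z < ε := by
  have hki := N.ker_integrableOn (q := q) (r := r) z
  have hlin : ∫⁻ w in ball q r, ENNReal.ofReal (N.ker q r z w) ≠ ⊤ := by
    exact hki.lintegral_lt_top.ne
  obtain ⟨δ, hδ, h⟩ := exists_pos_setLIntegral_lt_of_measure_lt hlin
    (ε := ENNReal.ofReal ε) (by simpa using hε)
  refine ⟨δ, hδ, fun S hS hSm hSv => ?_⟩
  have h1 : (volume.restrict (ball q r)) S < δ :=
    lt_of_le_of_lt (Measure.restrict_apply_le _ _) hSv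
  have h2 := h S h1
  rw [Measure.restrict_restrict hSm, inter_eq_left.2 hS] at h2
  rw [N.gT_eq hS]
  have h3 : 0 ≤ᵐ[volume.restrict S] N.ker q r z := by
    rw [EventuallyLE, ae_restrict_iff' hSm]
    filter_upwards with w hw
    exact N.ker_nonneg hz (hS hw)
  rw [integral_eq_lintegral_of_nonneg_ae h3 (hki.mono_set hS).aestronglyMeasurable]
  apply (ENNReal.toReal_lt_of_lt_ofReal h2)

lemma continuousOn_pot_nu : ContinuousOn (pot N.ν) Df := by
  intro z hz
  obtain ⟨d, hd, hzd⟩ := N.exists_dist hz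
  exact (continuousAt_pot hd N.ae_bound hzd).continuousWithinAt

lemma gT_continuousOn {q : ℂ} {r : ℝ} {S : Set ℂ} (hS : S ⊆ ball q r) :
    ContinuousOn (N.gT q r S) Df := by
  unfold gT
  apply ContinuousOn.sub
  · exact continuousOn_const.mul (N.continuousOn_pot_nu.add continuousOn_const)
  · exact (continuous_pot_restrict hS).continuousOn

lemma gT_tendsto {q : ℂ} {r : ℝ} (hr : 0 < r) {S : Set ℂ} (hS : S ⊆ ball q r)
    (hSm : MeasurableSet S) :
    Tendsto (N.gT q r S) (cocompact ℂ) (𝓝 (volume.real S * N.A2 q r)) := by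
  have hfin : volume S ≠ ⊤ := ((measure_mono hS).trans_lt measure_ball_lt_top).ne
  have : IsFiniteMeasure (volume.restrict S) := ⟨by simpa using hfin.lt_top⟩
  have hB : ∀ᵐ w ∂(volume.restrict S), ‖w‖ ≤ ‖q‖ + r := by
    rw [ae_restrict_iff' hSm]
    filter_upwards with w hw
    exact norm_le_of_mem_ball (hS hw)
  have h1 : Tendsto (fun z => pot (volume.restrict S) z - (volume.restrict S).real univ *
      Real.log ‖z‖) (cocompact ℂ) (𝓝 0) := by
    apply tendsto_pot_sub_log (by positivity) hB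
    intro z
    left
    exact (integrableOn_log_ball z q r).mono_set hS
  have h2 : Tendsto (fun z => pot N.ν z - N.ν.real univ *
      Real.log ‖z‖) (cocompact ℂ) (𝓝 0) := by
    apply tendsto_pot_sub_log N.Bpos N.ae_bound
    intro z
    by_cases h : ‖z‖ < 2 * N.B
    · right; exact h
    · left
      push Not at h
      apply integrable_log_of_dist N.Bpos N.ae_bound
      filter_upwards [N.ae_bound] with w hw
      have := norm_sub_norm_le z w
      linarith
  have h3 := ((h2.add_const (N.A2 q r)).const_mul (volume.real S)).sub h1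
  simp only [zero_add, sub_zero] at h3
  refine h3.congr fun z => ?_
  simp only [probReal_univ, one_mul, measureReal_restrict_apply_univ]
  unfold gT
  ring

lemma circleIntegrable_of_continuousOn {g : ℂ → ℝ} (hg : ContinuousOn g Df) {z : ℂ} {ρ : ℝ}
    (hρ : 0 < ρ) (hsub : closedBall z ρ ⊆ Df) : CircleIntegrable g z ρ := by
  apply ContinuousOn.circleIntegrable'
  rw [abs_of_pos hρ]
  exact hg.mono (sphere_subset_closedBall.trans hsub)

lemma gT_circleAverage {q : ℂ} {r : ℝ} {S : Set ℂ} (hS : S ⊆ ball q r)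
    (hSm : MeasurableSet S) {z : ℂ} {ρ : ℝ} (hρ : 0 < ρ) (hsub : closedBall z ρ ⊆ Df)
    {κ : ℝ} (hκ : κ = 0 ∨ (κ = 1 ∧ ball z ρ ⊆ S)) :
    Real.circleAverage (N.gT q r S) z ρ ≤ N.gT q r S z - κ * (π / 4 * Real.log 2) * ρ ^ 2 := by
  have h1 : Real.circleAverage (pot N.ν) z ρ = pot N.ν z := by
    apply circleAverage_pot_of_far hρ N.ae_bound
    filter_upwards [N.ae_mem] with w hw
    by_contra h
    push Not at h
    have : w ∈ closedBall z ρ := by
      rw [mem_closedBall', dist_eq_norm]; exact h.le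
    exact (disjoint_left.1 N.disj) hw (hsub this)
  have hcν : CircleIntegrable (pot N.ν) z ρ :=
    circleIntegrable_of_continuousOn N.continuousOn_pot_nu hρ hsub
  have hcS : CircleIntegrable (pot (volume.restrict S)) z ρ :=
    (continuous_pot_restrict hS).continuousOn.circleIntegrable'
  have hcc : CircleIntegrable (fun _ : ℂ => N.A2 q r) z ρ := circleIntegrable_const _ _ _
  have h2 := circleAverage_pot_restrict_ge hS hSm z hρ hκ
  have h3 : Real.circleAverage (N.gT q r S) z ρ =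
      volume.real S * (pot N.ν z + N.A2 q r) - Real.circleAverage (pot (volume.restrict S)) z ρ := by
    have hfun : N.gT q r S = fun z => volume.real S • (pot N.ν z + N.A2 q r)
        - pot (volume.restrict S) z := rfl
    rw [hfun, Real.circleAverage_fun_sub _ hcS, Real.circleAverage_fun_smul,
      Real.circleAverage_fun_add hcν hcc, h1, Real.circleAverage_const]
    · rfl
    · exact (hcν.add hcc).const_smul
  rw [h3]
  unfold gT
  linarith

lemma gT_circleAverage_large {q : ℂ} {r : ℝ} {S : Set ℂ} (hS : S ⊆ ball q r)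
    (hSm : MeasurableSet S) {ρ : ℝ} (hρB : N.B < ρ) (hρ2 : ‖q‖ + r ≤ ρ) :
    Real.circleAverage (N.gT q r S) 0 ρ = volume.real S * N.A2 q r := by
  have hρ : 0 < ρ := N.Bpos.trans hρB
  have hfin : volume S ≠ ⊤ := ((measure_mono hS).trans_lt measure_ball_lt_top).ne
  have : IsFiniteMeasure (volume.restrict S) := ⟨by simpa using hfin.lt_top⟩
  have hB : ∀ᵐ w ∂(volume.restrict S), ‖w‖ ≤ ‖q‖ + r := by
    rw [ae_restrict_iff' hSm]
    filter_upwards with w hw
    exact norm_le_of_mem_ball (hS hw)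
  have h1 := circleAverage_pot_of_large hρ hρB.le N.ae_bound
  have h2 := circleAverage_pot_of_large hρ hρ2 hB
  have hcν : CircleIntegrable (pot N.ν) 0 ρ := by
    apply ContinuousOn.circleIntegrable'
    rw [abs_of_pos hρ]
    intro z hz
    have hz' : ‖z‖ = ρ := by simpa using hz
    apply (continuousAt_pot (d := ρ - N.B) (by linarith) N.ae_bound _).continuousWithinAt
    filter_upwards [N.ae_bound] with w hw
    have := norm_sub_norm_le z w
    linarith
  have hcS : CircleIntegrable (pot (volume.restrict S)) 0 ρ :=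
    (continuous_pot_restrict hS).continuousOn.circleIntegrable'
  have hcc : CircleIntegrable (fun _ : ℂ => N.A2 q r) 0 ρ := circleIntegrable_const _ _ _
  have hfun : N.gT q r S = fun z => volume.real S • (pot N.ν z + N.A2 q r)
      - pot (volume.restrict S) z := rfl
  rw [hfun, Real.circleAverage_fun_sub _ hcS, Real.circleAverage_fun_smul,
    Real.circleAverage_fun_add hcν hcc, h1, h2, Real.circleAverage_const]
  · simp only [probReal_univ, measureReal_restrict_apply_univ, smul_eq_mul]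
    ring
  · exact (hcν.add hcc).const_smul

lemma gT_circleIntegrable_large {q : ℂ} {r : ℝ} {S : Set ℂ} (hS : S ⊆ ball q r)
    {ρ : ℝ} (hρB : N.B < ρ) : CircleIntegrable (N.gT q r S) 0 ρ := by
  have hρ : 0 < ρ := N.Bpos.trans hρB
  have hcν : CircleIntegrable (pot N.ν) 0 ρ := by
    apply ContinuousOn.circleIntegrable'
    rw [abs_of_pos hρ]
    intro z hz
    have hz' : ‖z‖ = ρ := by simpa using hz
    apply (continuousAt_pot (d := ρ - N.B) (by linarith) N.ae_bound _).continuousWithinAt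
    filter_upwards [N.ae_bound] with w hw
    have := norm_sub_norm_le z w
    linarith
  have hcS : CircleIntegrable (pot (volume.restrict S)) 0 ρ :=
    (continuous_pot_restrict hS).continuousOn.circleIntegrable'
  have hcc : CircleIntegrable (fun _ : ℂ => N.A2 q r) 0 ρ := circleIntegrable_const _ _ _
  have h1 : CircleIntegrable (fun z => volume.real S • (pot N.ν z + N.A2 q r)) 0 ρ :=
    (hcν.add hcc).const_smul
  exact h1.sub hcS

/-- Combination of two Green-type potentials. -/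
noncomputable def gT2 (q : ℂ) (r : ℝ) (a b : ℝ) (S G : Set ℂ) (z : ℂ) : ℝ :=
  a * N.gT q r S z + b * N.gT q r G z

section gT2

variable {q : ℂ} {r a b : ℝ} {S G : Set ℂ} (hS : S ⊆ ball q r) (hSm : MeasurableSet S)
  (hG : G ⊆ ball q r) (hGm : MeasurableSet G) (ha : 0 ≤ a) (hb : 0 ≤ b)

include hS hG

lemma gT2_continuousOn : ContinuousOn (N.gT2 q r a b S G) Df :=
  (continuousOn_const.mul (N.gT_continuousOn hS)).add
    (continuousOn_const.mul (N.gT_continuousOn hG))

include hSm hGm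

lemma gT2_tendsto (hr : 0 < r) : Tendsto (N.gT2 q r a b S G) (cocompact ℂ)
    (𝓝 (a * (volume.real S * N.A2 q r) + b * (volume.real G * N.A2 q r))) :=
  ((N.gT_tendsto hr hS hSm).const_mul a).add ((N.gT_tendsto hr hG hGm).const_mul b)

lemma gT2_large {ρ : ℝ} (hρB : N.B < ρ) (hρ2 : ‖q‖ + r ≤ ρ) :
    Real.circleAverage (N.gT2 q r a b S G) 0 ρ =
      a * (volume.real S * N.A2 q r) + b * (volume.real G * N.A2 q r) := by
  have h1 : CircleIntegrable (fun z => a • N.gT q r S z) 0 ρ :=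
    (N.gT_circleIntegrable_large hS hρB).const_smul
  have h2 : CircleIntegrable (fun z => b • N.gT q r G z) 0 ρ :=
    (N.gT_circleIntegrable_large hG hρB).const_smul
  have hfun : N.gT2 q r a b S G = fun z => a • N.gT q r S z + b • N.gT q r G z := rfl
  rw [hfun, Real.circleAverage_fun_add h1 h2, Real.circleAverage_fun_smul,
    Real.circleAverage_fun_smul, N.gT_circleAverage_large hS hSm hρB hρ2,
    N.gT_circleAverage_large hG hGm hρB hρ2]
  rfl

include ha hb

lemma gT2_nonneg {z : ℂ} (hz : z ∈ Df) : 0 ≤ N.gT2 q r a b S G z := by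
  have h1 := N.gT_nonneg hS hSm hz
  have h2 := N.gT_nonneg hG hGm hz
  unfold gT2
  positivity

lemma gT2_circleAverage {z : ℂ} {ρ : ℝ} (hρ : 0 < ρ) (hsub : closedBall z ρ ⊆ Df)
    {κ κ' : ℝ} (hκ : κ = 0 ∨ (κ = 1 ∧ ball z ρ ⊆ S)) (hκ' : κ' = 0 ∨ (κ' = 1 ∧ ball z ρ ⊆ G)) :
    Real.circleAverage (N.gT2 q r a b S G) z ρ ≤ N.gT2 q r a b S G z -
      (a * κ + b * κ') * (π / 4 * Real.log 2) * ρ ^ 2 := by
  have hc1 : CircleIntegrable (N.gT q r S) z ρ :=
    circleIntegrable_of_continuousOn (N.gT_continuousOn hS) hρ hsub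
  have hc2 : CircleIntegrable (N.gT q r G) z ρ :=
    circleIntegrable_of_continuousOn (N.gT_continuousOn hG) hρ hsub
  have h1 : CircleIntegrable (fun z => a • N.gT q r S z) z ρ := hc1.const_smul
  have h2 : CircleIntegrable (fun z => b • N.gT q r G z) z ρ := hc2.const_smul
  have hfun : N.gT2 q r a b S G = fun z => a • N.gT q r S z + b • N.gT q r G z := rfl
  rw [hfun, Real.circleAverage_fun_add h1 h2, Real.circleAverage_fun_smul,
    Real.circleAverage_fun_smul]
  have h3 := mul_le_mul_of_nonneg_left (N.gT_circleAverage hS hSm hρ hsub hκ) ha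
  have h4 := mul_le_mul_of_nonneg_left (N.gT_circleAverage hG hGm hρ hsub hκ') hb
  simp only [smul_eq_mul]
  linarith

end gT2

end NuData

end Pool.Agent.Helper37
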