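import Mathlib
import Pool.Agent.Helper37.Green2
import Pool.Agent.Helper37.Cusp
import Pool.Agent.Helper37.Cutoff

open Set Filter Topology MeasureTheory Metric Complex
open scoped Real

namespace Pool.Agent.Helper37

/-- Continuous, nonnegative, locally superharmonic functions on the finite part `Df` of a domain,
with value `a` at infinity, and with lower limit at least one at all points of `E`. -/
structure Good (Df : Set ℂ) (Rs : ℝ) (E : Set ℂ) (g : ℂ → ℝ) (a : ℝ) : Prop where
  a_nonneg : 0 ≤ a
  nonneg : ∀ z ∈ Df, 0 ≤ g z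
  cont : ContinuousOn g Df
  tend : Tendsto g (cocompact ℂ) (𝓝 a)
  loc : ∀ z ∈ Df, ∃ ρ > 0, ∀ r, 0 < r → r < ρ → Real.circleAverage g z r ≤ g z
  large : ∀ r > Rs, Real.circleAverage g 0 r ≤ a
  near : ∀ ξ ∈ E, ∀ η > 0, ∀ᶠ z in 𝓝[Df] ξ, 1 - η ≤ g z

/-- The main local construction. -/
lemma assembly {Df : Set ℂ} (hDf : IsOpen Df) (N : NuData Df) {α : ℝ} (hα : 1 / 2 < α)
    (hα1 : α < 1) {q : ℂ} {r : ℝ} (hr : 0 < r) (hr2 : r ≤ 1 / 2) {Rs : ℝ} (hRs1 : N.B ≤ Rs)
    (hRs2 : ‖q‖ + r ≤ Rs) {E : Set ℂ} (hE1 : E ⊆ ball q (r / 4))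
    (hE3 : ∀ ξ ∈ E, ∀ x ∈ Df ∩ ball q r, ξ ∈ closure (connectedComponentIn (Df ∩ ball q r) x) →
      ∃ θ : ℝ, ∀ w ∈ connectedComponentIn (Df ∩ ball q r) x, InCusp α ξ θ w) :
    ∃ c1 c2 : ℝ, 0 ≤ c1 ∧ 0 ≤ c2 ∧ ∀ (K' : Set ℂ), IsCompact K' → K' ⊆ Df ∩ ball q r →
      ∀ n : ℕ, 0 < n → ∃ (S G : Set ℂ) (g : ℂ → ℝ),
        S ⊆ (Df ∩ ball q r) \ K' ∧ MeasurableSet S ∧ G ⊆ ball q r ∧ MeasurableSet G ∧
        Good Df Rs E g (c1 * (volume.real S * N.A2 q r) +
          (c2 * bnd α n) * (volume.real G * N.A2 q r)) ∧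
        (∀ z ∈ Df, z ∉ ball q r → g z = N.gT2 q r c1 (c2 * bnd α n) S G z) ∧
        (∀ z ∈ K', ∀ s > 0, (∀ e ∈ E, s ≤ ‖z - e‖) →
          g z ≤ bnd α n / s + N.gT2 q r c1 (c2 * bnd α n) S G z) := by
  classical
  obtain ⟨φ, hφc, hφ0, hφ1, hφone, hφzero, L, C, hL0, hC0, hL, hC⟩ := exists_cutoff q hr
  have hc0 : 0 < π / 4 * Real.log 2 := by
    have := Real.pi_pos
    have := Real.log_pos one_lt_two
    positivity
  set c0 := π / 4 * Real.log 2 with hc0def
  set s0 : ℝ := r / 8 with hs0
  have hs0pos : 0 < s0 := by positivity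
  refine ⟨C / c0, (L / s0 ^ 2 + C / s0) / c0, by positivity, by positivity, ?_⟩
  intro K' hK' hK'V n hn
  set c1 := C / c0 with hc1
  set c2 := (L / s0 ^ 2 + C / s0) / c0 with hc2
  have hc1' : 0 ≤ c1 := by positivity
  have hc2' : 0 ≤ c2 := by positivity
  set b := bnd α n with hb
  have hbpos : 0 < b := bnd_pos hn
  set V := Df ∩ ball q r with hV
  have hVopen : IsOpen V := hDf.inter isOpen_ball
  have hcompopen : ∀ x, IsOpen (connectedComponentIn V x) := fun x => hVopen.connectedComponentIn
  have hcompsub : ∀ x, connectedComponentIn V x ⊆ V := fun x => connectedComponentIn_subset V x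
  have hself : ∀ x ∈ V, x ∈ connectedComponentIn V x := fun x hx => mem_connectedComponentIn hx
  have hcompeq : ∀ x y, y ∈ connectedComponentIn V x →
      connectedComponentIn V x = connectedComponentIn V y := fun x y h => connectedComponentIn_eq h
  -- finitely many components cover K'
  obtain ⟨t, htK, hKt⟩ := hK'.elim_nhds_subcover (fun x => connectedComponentIn V x)
    (fun x hx => (hcompopen x).mem_nhds (hself x (hK'V hx)))
  set G : Set ℂ := ⋃ x ∈ t, connectedComponentIn V x with hG
  set S : Set ℂ := V \ G with hS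
  have hGV : G ⊆ V := by
    intro z hz
    simp only [hG, mem_iUnion] at hz
    obtain ⟨x, -, hx⟩ := hz
    exact hcompsub x hx
  have hGopen : IsOpen G := isOpen_biUnion fun x _ => hcompopen x
  have hSopen : IsOpen S := by
    rw [isOpen_iff_mem_nhds]
    intro z hz
    refine mem_of_superset ((hcompopen z).mem_nhds (hself z hz.1)) ?_
    intro w hw
    refine ⟨hcompsub z hw, fun hwG => ?_⟩
    simp only [hG, mem_iUnion] at hwG
    obtain ⟨x, hxt, hx⟩ := hwG
    apply hz.2
    simp only [hG, mem_iUnion]
    refine ⟨x, hxt, ?_⟩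
    rw [hcompeq x w hx, ← hcompeq z w hw]
    exact hself z hz.1
  have hSV : S ⊆ V := sdiff_subset
  have hSb : S ⊆ ball q r := fun z hz => (hSV hz).2
  have hGb : G ⊆ ball q r := fun z hz => (hGV hz).2
  have hSm : MeasurableSet S := hSopen.measurableSet
  have hGm : MeasurableSet G := hGopen.measurableSet
  -- the functions on the components
  have hvex : ∀ U : Set ℂ, ∃ v : ℂ → ℝ, (∃ x ∈ V, U = connectedComponentIn V x) →
      (∀ z ∈ U, 0 ≤ v z) ∧
      (∀ z ρ, 0 < ρ → closedBall z ρ ⊆ U → Real.circleAverage v z ρ = v z) ∧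
      ContinuousOn v U ∧
      (∀ z ∈ U, ∀ s, 0 < s → (∀ e ∈ E, s ≤ ‖z - e‖) → v z ≤ b / s) ∧
      (∀ z ∈ U, ∀ z' ∈ U, ∀ s, 0 < s → (∀ e ∈ E, s ≤ ‖z - e‖) → (∀ e ∈ E, s ≤ ‖z' - e‖) →
        |v z - v z'| ≤ b / s ^ 2 * ‖z - z'‖) ∧
      (∀ ξ ∈ E ∩ closure U, ∀ η > 0, ∀ᶠ z in 𝓝[U] ξ, 1 - η ≤ v z) := by
    intro U
    by_cases hU : ∃ x ∈ V, U = connectedComponentIn V x
    · obtain ⟨x, hxV, hUx⟩ := hU
      obtain ⟨v, hv1, hv2, hv3, hv4, hv5, hv6⟩ := exists_cusp_function hα hα1
        (U := U) (E := E ∩ closure U) inter_subset_right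
        (by
          rintro e ⟨heE, heU⟩
          rw [hUx] at heU ⊢
          exact hE3 e heE x hxV heU)
        (by
          rintro e ⟨heE, -⟩ e' ⟨heE', -⟩
          have h1 := mem_ball.1 (hE1 heE)
          have h2 := mem_ball'.1 (hE1 heE')
          rw [← dist_eq_norm]
          have h3 := dist_triangle e q e'
          linarith) hn
      exact ⟨v, fun _ => ⟨hv1, hv2, hv3, fun z hz s hs hE => hv4 z hz s hs fun e he => hE e he.1,
        fun z hz z' hz' s hs hE hE' => hv5 z hz z' hz' s hs (fun e he => hE e he.1)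
          (fun e he => hE' e he.1), hv6⟩⟩
    · exact ⟨fun _ => 0, fun h => absurd h hU⟩
  choose vf hvf using hvex
  set h : ℂ → ℝ := fun z => if z ∈ G then vf (connectedComponentIn V z) z else 1 with hh
  set f : ℂ → ℝ := fun z => φ z * h z with hf
  set T : ℂ → ℝ := N.gT2 q r c1 (c2 * b) S G with hT
  have hc2b : 0 ≤ c2 * b := by positivity
  have hGcomp : ∀ z ∈ G, ∀ w ∈ connectedComponentIn V z, h w = vf (connectedComponentIn V z) w := by
    intro z hz w hw
    have hwG : w ∈ G := by
      simp only [hG, mem_iUnion] at hz ⊢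
      obtain ⟨x, hxt, hx⟩ := hz
      refine ⟨x, hxt, ?_⟩
      rw [hcompeq x z hx]; exact hw
    simp only [hh, if_pos hwG]
    rw [hcompeq z w hw]
  have hSone : ∀ z ∈ S, h z = 1 := by
    intro z hz
    simp only [hh, if_neg hz.2]
  have hvfp := fun (z : ℂ) (hz : z ∈ G) => hvf (connectedComponentIn V z) ⟨z, hGV hz, rfl⟩
  -- nonnegativity
  have hf0 : ∀ z, 0 ≤ f z := by
    intro z
    simp only [hf]
    apply mul_nonneg (hφ0 z)
    by_cases hz : z ∈ G
    · rw [hGcomp z hz z (hself z (hGV hz))]
      exact (hvfp z hz).1 z (hself z (hGV hz))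
    · simp only [hh, if_neg hz]; norm_num
  -- vanishing off the ball
  have hfar : ∀ z, 3 * r / 4 ≤ dist z q → f z = 0 := by
    intro z hz
    simp only [hf, hφzero z hz, zero_mul]
  -- trichotomy for points of Df
  have htri : ∀ z ∈ Df, z ∈ G ∨ z ∈ S ∨ r ≤ dist z q := by
    intro z hz
    by_cases hb' : z ∈ ball q r
    · by_cases hzG : z ∈ G
      · exact Or.inl hzG
      · exact Or.inr (Or.inl ⟨⟨hz, hb'⟩, hzG⟩)
    · right; right
      rwa [mem_ball, not_lt] at hb'
  have hfarnhds : ∀ z, r ≤ dist z q → ∀ᶠ w in 𝓝 z, f w = 0 := by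
    intro z hz
    have : {w : ℂ | 3 * r / 4 < dist w q} ∈ 𝓝 z := by
      apply IsOpen.mem_nhds (isOpen_lt continuous_const (by fun_prop))
      show 3 * r / 4 < dist z q
      linarith
    filter_upwards [this] with w hw
    exact hfar w (le_of_lt hw)
  -- continuity
  have hfcont : ContinuousOn f Df := by
    intro z hz
    apply ContinuousAt.continuousWithinAt
    rcases htri z hz with hzG | hzS | hzf
    · have hev : f =ᶠ[𝓝 z] fun w => φ w * vf (connectedComponentIn V z) w := by
        filter_upwards [(hcompopen z).mem_nhds (hself z (hGV hzG))] with w hw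
        simp only [hf]
        rw [hGcomp z hzG w hw]
      refine ContinuousAt.congr ?_ hev.symm
      exact hφc.continuousAt.mul (((hvfp z hzG).2.2.1).continuousAt
        ((hcompopen z).mem_nhds (hself z (hGV hzG))))
    · have hev : f =ᶠ[𝓝 z] φ := by
        filter_upwards [hSopen.mem_nhds hzS] with w hw
        simp only [hf]
        rw [hSone w hw, mul_one]
      exact hφc.continuousAt.congr hev.symm
    · have hev : f =ᶠ[𝓝 z] fun _ => 0 := hfarnhds z hzf
      exact continuousAt_const.congr hev.symm
  have hTcont : ContinuousOn T Df := N.gT2_continuousOn hSb hGb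
  have hTnn : ∀ z ∈ Df, 0 ≤ T z := fun z hz => N.gT2_nonneg hSb hSm hGb hGm hc1' hc2b hz
  refine ⟨S, G, fun z => f z + T z, ?_, hSm, hGb, hGm, ⟨?_, ?_, ?_, ?_, ?_, ?_, ?_⟩, ?_, ?_⟩
  · -- S ⊆ V \ K'
    intro z hz
    refine ⟨hz.1, fun hzK => hz.2 ?_⟩
    exact hKt hzK
  · -- a_nonneg
    have := N.A2_nonneg q r
    positivity
  · -- nonneg
    intro z hz
    exact add_nonneg (hf0 z) (hTnn z hz)
  · -- continuity
    exact hfcont.add hTcont
  · -- limit at infinity
    have h1 := N.gT2_tendsto (a := c1) (b := c2 * b) hSb hSm hGb hGm hr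
    have h2 : Tendsto f (cocompact ℂ) (𝓝 0) := by
      apply tendsto_const_nhds.congr'
      have hev : ∀ᶠ z : ℂ in cocompact ℂ, ‖q‖ + r < ‖z‖ :=
        tendsto_norm_cocompact_atTop.eventually_gt_atTop _
      filter_upwards [hev] with z hz
      symm
      apply hfar
      rw [dist_eq_norm]
      have := norm_sub_norm_le z q
      linarith
    have h3 := h2.add h1
    rwa [zero_add] at h3
  · -- local super-mean value property
    intro z hz
    obtain ⟨ρD, hρD, hρDsub⟩ := Metric.isOpen_iff.1 hDf z hz
    rcases htri z hz with hzG | hzS | hzf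
    · -- z in one of the finitely many components
      set U := connectedComponentIn V z with hU
      obtain ⟨hv1, hv2, hv3, hv4, hv5, hv6⟩ := hvfp z hzG
      rw [← hU] at hv1 hv2 hv3 hv4 hv5 hv6
      have hzU : z ∈ U := hself z (hGV hzG)
      obtain ⟨ρU, hρU, hρUsub⟩ := Metric.isOpen_iff.1 (hcompopen z) z hzU
      have hUG : U ⊆ G := by
        intro w hw
        simp only [hG, mem_iUnion] at hzG ⊢
        obtain ⟨x, hxt, hx⟩ := hzG
        refine ⟨x, hxt, ?_⟩
        rw [hcompeq x z hx]; exact hw
      have hfU : ∀ w ∈ U, f w = φ w * vf U w := by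
        intro w hw
        simp only [hf]
        rw [hGcomp z hzG w hw]
      have hUDf : U ⊆ Df := fun w hw => (hcompsub z hw).1
      by_cases hnear : dist z q < r / 2
      · refine ⟨min ρU (r / 2 - dist z q), lt_min hρU (by linarith), fun ρ hρ0 hρ1 => ?_⟩
        have hρU' : ρ < ρU := lt_of_lt_of_le hρ1 (min_le_left _ _)
        have hρr : ρ < r / 2 - dist z q := lt_of_lt_of_le hρ1 (min_le_right _ _)
        have hsubU : closedBall z ρ ⊆ U := (closedBall_subset_ball hρU').trans hρUsub
        have hsubDf : closedBall z ρ ⊆ Df := hsubU.trans hUDf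
        have hsubb : closedBall z ρ ⊆ ball q (r / 2) := by
          intro w hw
          rw [mem_closedBall] at hw
          rw [mem_ball]
          have := dist_triangle w z q
          linarith
        have hfi : CircleIntegrable f z ρ :=
          NuData.circleIntegrable_of_continuousOn hfcont hρ0 hsubDf
        have hTi : CircleIntegrable T z ρ :=
          NuData.circleIntegrable_of_continuousOn hTcont hρ0 hsubDf
        rw [Real.circleAverage_fun_add hfi hTi]
        have h1 : Real.circleAverage f z ρ = f z := by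
          have : Real.circleAverage f z ρ = Real.circleAverage (vf U) z ρ := by
            apply Real.circleAverage_congr_sphere
            intro w hw
            rw [abs_of_pos hρ0] at hw
            have hw' := sphere_subset_closedBall hw
            rw [hfU w (hsubU hw'), hφone w (hsubb hw'), one_mul]
          rw [this, hv2 z ρ hρ0 hsubU, hfU z hzU, hφone z (by rwa [mem_ball]), one_mul]
        have h2 : Real.circleAverage T z ρ ≤ T z := by
          have := N.gT2_circleAverage hSb hSm hGb hGm hc1' hc2b hρ0 hsubDf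
            (κ := 0) (κ' := 0) (Or.inl rfl) (Or.inl rfl)
          simpa using this
        linarith
      · push Not at hnear
        refine ⟨min ρU s0, lt_min hρU hs0pos, fun ρ hρ0 hρ1 => ?_⟩
        have hρU' : ρ < ρU := lt_of_lt_of_le hρ1 (min_le_left _ _)
        have hρr : ρ < s0 := lt_of_lt_of_le hρ1 (min_le_right _ _)
        have hsubU : closedBall z ρ ⊆ U := (closedBall_subset_ball hρU').trans hρUsub
        have hsubDf : closedBall z ρ ⊆ Df := hsubU.trans hUDf
        have hdE : ∀ w ∈ closedBall z ρ, ∀ e ∈ E, s0 ≤ ‖w - e‖ := by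
          intro w hw e he
          rw [mem_closedBall, dist_comm] at hw
          have h1 := mem_ball.1 (hE1 he)
          rw [← dist_eq_norm]
          have h2 := dist_triangle z w e
          have h3 := dist_triangle z e q
          rw [hs0] at hρr ⊢
          linarith
        have hfi : CircleIntegrable f z ρ :=
          NuData.circleIntegrable_of_continuousOn hfcont hρ0 hsubDf
        have hTi : CircleIntegrable T z ρ :=
          NuData.circleIntegrable_of_continuousOn hTcont hρ0 hsubDf
        rw [Real.circleAverage_fun_add hfi hTi]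
        have hvz : vf U z ≤ b / s0 :=
          hv4 z hzU s0 hs0pos (hdE z (mem_closedBall_self hρ0.le))
        have h1 : Real.circleAverage f z ρ ≤ f z + (L * (b / s0 ^ 2) + C * vf U z) * ρ ^ 2 := by
          have : Real.circleAverage f z ρ = Real.circleAverage (fun w => φ w * vf U w) z ρ := by
            apply Real.circleAverage_congr_sphere
            intro w hw
            rw [abs_of_pos hρ0] at hw
            exact hfU w (hsubU (sphere_subset_closedBall hw))
          rw [this, hfU z hzU]
          apply circleAverage_mul_le hφc hL hL0 (hC z ρ hρ0) hρ0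
            (hv3.mono (sphere_subset_closedBall.trans hsubU)) (hv2 z ρ hρ0 hsubU) (hv1 z hzU)
          intro w hw
          exact hv5 w (hsubU (sphere_subset_closedBall hw)) z hzU s0 hs0pos
            (hdE w (sphere_subset_closedBall hw)) (hdE z (mem_closedBall_self hρ0.le))
        have h2 : Real.circleAverage T z ρ ≤ T z - (c1 * 0 + c2 * b * 1) * c0 * ρ ^ 2 :=
          N.gT2_circleAverage hSb hSm hGb hGm hc1' hc2b hρ0 hsubDf
            (κ := 0) (κ' := 1) (Or.inl rfl)
            (Or.inr ⟨rfl, ball_subset_closedBall.trans (hsubU.trans hUG)⟩)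
        have h3 : (L * (b / s0 ^ 2) + C * vf U z) ≤ (c1 * 0 + c2 * b * 1) * c0 := by
          have h4 : (c1 * 0 + c2 * b * 1) * c0 = L * (b / s0 ^ 2) + C * (b / s0) := by
            rw [hc2]; field_simp; ring
          rw [h4]
          gcongr
        have h5 := mul_le_mul_of_nonneg_right h3 (sq_nonneg ρ)
        linarith
    · -- z in the remaining components
      obtain ⟨ρS, hρS, hρSsub⟩ := Metric.isOpen_iff.1 hSopen z hzS
      refine ⟨ρS, hρS, fun ρ hρ0 hρ1 => ?_⟩
      have hsubS : closedBall z ρ ⊆ S := (closedBall_subset_ball hρ1).trans hρSsub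
      have hsubDf : closedBall z ρ ⊆ Df := fun w hw => (hSV (hsubS hw)).1
      have hfi : CircleIntegrable f z ρ :=
        NuData.circleIntegrable_of_continuousOn hfcont hρ0 hsubDf
      have hTi : CircleIntegrable T z ρ :=
        NuData.circleIntegrable_of_continuousOn hTcont hρ0 hsubDf
      rw [Real.circleAverage_fun_add hfi hTi]
      have h1 : Real.circleAverage f z ρ ≤ f z + C * ρ ^ 2 := by
        have : Real.circleAverage f z ρ = Real.circleAverage φ z ρ := by
          apply Real.circleAverage_congr_sphere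
          intro w hw
          rw [abs_of_pos hρ0] at hw
          simp only [hf]
          rw [hSone w (hsubS (sphere_subset_closedBall hw)), mul_one]
        rw [this]
        have h2 : f z = φ z := by simp only [hf]; rw [hSone z hzS, mul_one]
        rw [h2]
        exact hC z ρ hρ0
      have h2 : Real.circleAverage T z ρ ≤ T z - (c1 * 1 + c2 * b * 0) * c0 * ρ ^ 2 :=
        N.gT2_circleAverage hSb hSm hGb hGm hc1' hc2b hρ0 hsubDf
          (κ := 1) (κ' := 0) (Or.inr ⟨rfl, ball_subset_closedBall.trans hsubS⟩) (Or.inl rfl)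
      have h3 : (c1 * 1 + c2 * b * 0) * c0 = C := by rw [hc1]; field_simp; ring
      rw [h3] at h2
      linarith
    · -- z far from the ball
      obtain ⟨ρ1, hρ1, hρ1sub⟩ := Metric.eventually_nhds_iff_ball.1 (hfarnhds z hzf)
      refine ⟨min ρD ρ1, lt_min hρD hρ1, fun ρ hρ0 hρlt => ?_⟩
      have hsubDf : closedBall z ρ ⊆ Df :=
        (closedBall_subset_ball (lt_of_lt_of_le hρlt (min_le_left _ _))).trans hρDsub
      have hfi : CircleIntegrable f z ρ :=
        NuData.circleIntegrable_of_continuousOn hfcont hρ0 hsubDf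
      have hTi : CircleIntegrable T z ρ :=
        NuData.circleIntegrable_of_continuousOn hTcont hρ0 hsubDf
      rw [Real.circleAverage_fun_add hfi hTi]
      have h1 : Real.circleAverage f z ρ = f z := by
        have h0 : f z = 0 := hρ1sub z (mem_ball_self hρ1)
        rw [h0]
        apply Real.circleAverage_const_on_circle
        intro w hw
        rw [abs_of_pos hρ0] at hw
        exact hρ1sub w (closedBall_subset_ball (lt_of_lt_of_le hρlt (min_le_right _ _))
          (sphere_subset_closedBall hw))
      have h2 : Real.circleAverage T z ρ ≤ T z := by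
        have := N.gT2_circleAverage hSb hSm hGb hGm hc1' hc2b hρ0 hsubDf
          (κ := 0) (κ' := 0) (Or.inl rfl) (Or.inl rfl)
        simpa using this
      linarith
  · -- large circles
    intro ρ hρ
    have hρB : N.B < ρ := lt_of_le_of_lt hRs1 hρ
    have hρ2 : ‖q‖ + r ≤ ρ := hRs2.trans hρ.le
    have hρ0 : 0 < ρ := N.Bpos.trans hρB
    have h1 : Real.circleAverage (fun z => f z + T z) 0 ρ = Real.circleAverage T 0 ρ := by
      apply Real.circleAverage_congr_sphere
      intro w hw
      rw [abs_of_pos hρ0] at hw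
      have hw' : ‖w‖ = ρ := by simpa using hw
      have : f w = 0 := by
        apply hfar
        rw [dist_eq_norm]
        have := norm_sub_norm_le w q
        linarith
      simp [this]
    rw [h1, N.gT2_large hSb hSm hGb hGm hρB hρ2]
  · -- boundary behaviour
    intro ξ hξ η hη
    have hball : ∀ᶠ z in 𝓝[Df] ξ, z ∈ ball q (r / 2) := by
      apply mem_nhdsWithin_of_mem_nhds
      apply isOpen_ball.mem_nhds
      exact ball_subset_ball (by linarith) (hE1 hξ)
    have hcomp : ∀ x ∈ t, ∀ᶠ z in 𝓝[Df] ξ, z ∈ connectedComponentIn V x →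
        1 - η ≤ vf (connectedComponentIn V x) z := by
      intro x hx
      have hxV : x ∈ V := hK'V (htK x hx)
      by_cases hcl : ξ ∈ closure (connectedComponentIn V x)
      · have := (hvf (connectedComponentIn V x) ⟨x, hxV, rfl⟩).2.2.2.2.2 ξ ⟨hξ, hcl⟩ η hη
        rw [eventually_nhdsWithin_iff] at this
        exact mem_nhdsWithin_of_mem_nhds this
      · have : (closure (connectedComponentIn V x))ᶜ ∈ 𝓝[Df] ξ :=
          mem_nhdsWithin_of_mem_nhds (isClosed_closure.isOpen_compl.mem_nhds hcl)
        filter_upwards [this] with z hz hz'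
        exact absurd (subset_closure hz') hz
    have hall := (Finset.eventually_all t).2 hcomp
    filter_upwards [hball, hall, self_mem_nhdsWithin] with z hzb hzall hzD
    have hTz := hTnn z hzD
    have hfz : 1 - η ≤ f z := by
      simp only [hf]
      rw [hφone z hzb, one_mul]
      by_cases hzG : z ∈ G
      · have hzG' := hzG
        simp only [hG, mem_iUnion] at hzG'
        obtain ⟨x, hxt, hx⟩ := hzG'
        have h1 := hzall x hxt hx
        rw [hGcomp z hzG z (hself z (hGV hzG)), ← hcompeq x z hx]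
        exact h1
      · simp only [hh, if_neg hzG]; linarith
    linarith
  · -- values off the ball
    intro z hz hzb
    have h1 : f z = 0 := by
      apply hfar
      rw [mem_ball, not_lt] at hzb
      linarith
    simp only [h1, zero_add, hT]
  · -- values on K'
    intro z hz s hs hsE
    have hzG : z ∈ G := hKt hz
    have hzU : z ∈ connectedComponentIn V z := hself z (hK'V hz)
    have h1 : f z ≤ b / s := by
      simp only [hf]
      rw [hGcomp z hzG z hzU]
      have h2 := (hvfp z hzG).2.2.2.1 z hzU s hs hsE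
      have h3 := (hvfp z hzG).1 z hzU
      calc φ z * vf (connectedComponentIn V z) z ≤ 1 * vf (connectedComponentIn V z) z := by
            gcongr
            exact hφ1 z
        _ ≤ b / s := by rw [one_mul]; exact h2
    show f z + T z ≤ b / s + T z
    linarith

end Pool.Agent.Helper37
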