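import Mathlib
import Pool.Agent.Helper37.Green2

open Set Filter Topology MeasureTheory Metric Complex
open scoped Real ENNReal ProbabilityTheory

namespace Pool.Agent.Helper37

/-- The positive part `log⁺ (1 / |z - w|)` of the logarithmic kernel, equal to `∞` on the
diagonal. -/
noncomputable def lker (z w : ℂ) : ℝ≥0∞ :=
  if z = w then ∞ else ENNReal.ofReal (Real.log (1 / ‖z - w‖))

lemma measurable_lker : Measurable (Function.uncurry lker) := by
  unfold lker Function.uncurry
  apply Measurable.ite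
  · exact measurableSet_eq_fun measurable_fst measurable_snd
  · exact measurable_const
  · apply Measurable.ennreal_ofReal
    fun_prop

/-- From a measure of finite logarithmic energy on a compact set in the complement of `Df` one
gets a probability measure with bounded potential. -/
lemma exists_nuData {Df K : Set ℂ} (hK : IsCompact K) (hdisj : Disjoint K Df) (μ : Measure ℂ)
    [IsProbabilityMeasure μ] (hμ : μ Kᶜ = 0) (hen : ∫⁻ z, ∫⁻ w, lker z w ∂μ ∂μ < ∞) :
    Nonempty (NuData Df) := by
  set p : ℂ → ℝ≥0∞ := fun z => ∫⁻ w, lker z w ∂μ with hp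
  have hpm : Measurable p := measurable_lker.lintegral_prod_right'
  have hae : ∀ᵐ z ∂μ, p z < ∞ := ae_lt_top hpm hen.ne
  have hKae : ∀ᵐ z ∂μ, z ∈ K := by rw [ae_iff]; exact hμ
  -- a level set of positive measure
  obtain ⟨n, hn⟩ : ∃ n : ℕ, μ ({z | p z ≤ n} ∩ K) ≠ 0 := by
    by_contra hcon
    push Not at hcon
    have h1 : μ (⋃ n : ℕ, ({z | p z ≤ n} ∩ K)) = 0 := by
      rw [measure_iUnion_null_iff]; exact hcon
    have h2 : ∀ᵐ z ∂μ, z ∈ ⋃ n : ℕ, ({z | p z ≤ n} ∩ K) := by
      filter_upwards [hae, hKae] with z hz hzK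
      obtain ⟨n, hn⟩ := ENNReal.exists_nat_gt hz.ne
      exact mem_iUnion.2 ⟨n, hn.le, hzK⟩
    rw [ae_iff] at h2
    have h3 : μ univ = 0 := by
      rw [← union_compl_self (⋃ n : ℕ, ({z | p z ≤ n} ∩ K))]
      exact measure_union_null h1 h2
    rw [measure_univ] at h3
    exact one_ne_zero h3
  set F : Set ℂ := {z | p z ≤ n} ∩ K with hF
  have hFm : MeasurableSet F := (measurableSet_le hpm measurable_const).inter hK.measurableSet
  have hFtop : μ F ≠ ∞ := measure_ne_top μ F
  let ν : Measure ℂ := μ[|F]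
  have hν : IsProbabilityMeasure ν := ProbabilityTheory.cond_isProbabilityMeasure hn
  have hνF : ∀ᵐ z ∂ν, z ∈ F := by
    have : ν = (μ F)⁻¹ • μ.restrict F := rfl
    rw [this]
    apply Measure.ae_smul_measure
    exact ae_restrict_mem hFm
  have hlin : ∀ f : ℂ → ℝ≥0∞, ∫⁻ z, f z ∂ν ≤ (μ F)⁻¹ * ∫⁻ z, f z ∂μ := by
    intro f
    have : ν = (μ F)⁻¹ • μ.restrict F := rfl
    rw [this, lintegral_smul_measure, smul_eq_mul]
    gcongr
    exact Measure.restrict_le_self
  obtain ⟨B0, hB0⟩ := hK.isBounded.exists_norm_le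
  have hFne : F.Nonempty := by
    by_contra h
    rw [not_nonempty_iff_eq_empty] at h
    apply hn
    rw [h, measure_empty]
  set A : ℝ := (ENNReal.ofReal (Real.log 3) + (μ F)⁻¹ * n).toReal with hA
  have hAfin : ENNReal.ofReal (Real.log 3) + (μ F)⁻¹ * n ≠ ∞ := by
    apply ENNReal.add_ne_top.2
    exact ⟨ENNReal.ofReal_ne_top, ENNReal.mul_ne_top (ENNReal.inv_ne_top.2 hn) (by simp)⟩
  refine ⟨⟨ν, K, max B0 1, A, hν, hK, ?_, hdisj, by positivity, ?_, ENNReal.toReal_nonneg, ?_⟩⟩
  · have hKν : ∀ᵐ z ∂ν, z ∈ K := by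
      filter_upwards [hνF] with z hz using hz.2
    rw [ae_iff] at hKν
    exact hKν
  · intro z hz
    exact (hB0 z hz).trans (le_max_left _ _)
  · intro z hz
    have hzF : 0 < infDist z F := by
      have h1 : z ∉ K := fun h => (disjoint_left.1 hdisj) h hz
      have hKne : K.Nonempty := hFne.mono inter_subset_right
      have h2 : 0 < infDist z K := (hK.isClosed.notMem_iff_infDist_pos hKne).1 h1
      exact lt_of_lt_of_le h2 (infDist_le_infDist_of_subset inter_subset_right hFne)
    obtain ⟨w, hwF, hw⟩ := (infDist_lt_iff hFne).1 (show infDist z F < 2 * infDist z F by linarith)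
    have hwp : p w ≤ n := hwF.1
    have hdist : ∀ ζ ∈ F, ‖w - ζ‖ ≤ 3 * ‖z - ζ‖ := by
      intro ζ hζ
      have h1 : infDist z F ≤ dist z ζ := infDist_le_dist_of_mem hζ
      have h2 := dist_triangle w z ζ
      rw [dist_comm w z] at h2
      rw [← dist_eq_norm, ← dist_eq_norm]
      linarith
    have hne : ∀ᵐ ζ ∂ν, ζ ≠ w := by
      have h1 : μ {w} = 0 := by
        by_contra h
        have h2 : ∞ ≤ p w := by
          calc ∞ = ∞ * μ {w} := (ENNReal.top_mul h).symm
            _ = ∫⁻ ζ in {w}, ∞ ∂μ := by simp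
            _ = ∫⁻ ζ in {w}, lker w ζ ∂μ := by
                apply setLIntegral_congr_fun (measurableSet_singleton w)
                intro ζ hζ
                rw [mem_singleton_iff] at hζ
                simp [lker, hζ]
            _ ≤ p w := setLIntegral_le_lintegral _ _
        have h3 := h2.trans hwp
        simp at h3
      have h2 : ν {w} = 0 := by
        have h3 : ν = (μ F)⁻¹ • μ.restrict F := rfl
        rw [h3, Measure.smul_apply, smul_eq_mul]
        have : (μ.restrict F) {w} = 0 := by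
          apply le_antisymm _ zero_le
          rw [← h1]
          exact Measure.restrict_apply_le _ _
        rw [this, mul_zero]
      rw [ae_iff]
      simpa using h2
    have hbound : ∫⁻ ζ, ENNReal.ofReal (log⁺ ‖z - ζ‖⁻¹) ∂ν ≤
        ENNReal.ofReal (Real.log 3) + (μ F)⁻¹ * n := by
      calc ∫⁻ ζ, ENNReal.ofReal (log⁺ ‖z - ζ‖⁻¹) ∂ν
          ≤ ∫⁻ ζ, (ENNReal.ofReal (Real.log 3) + lker w ζ) ∂ν := by
            apply lintegral_mono_ae
            filter_upwards [hνF, hne] with ζ hζ hζw
            have hwζ : 0 < ‖w - ζ‖ := by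
              rw [norm_pos_iff, sub_ne_zero]; exact hζw.symm
            have hzζ : 0 < ‖z - ζ‖ := by
              have := hdist ζ hζ
              linarith
            have h1 : ‖z - ζ‖⁻¹ ≤ 3 * ‖w - ζ‖⁻¹ := by
              rw [← div_eq_mul_inv, inv_eq_one_div, div_le_div_iff₀ hzζ hwζ, one_mul]
              exact hdist ζ hζ
            have h2 : log⁺ ‖z - ζ‖⁻¹ ≤ Real.log 3 + log⁺ ‖w - ζ‖⁻¹ := by
              calc log⁺ ‖z - ζ‖⁻¹ ≤ log⁺ (3 * ‖w - ζ‖⁻¹) := Real.posLog_le_posLog (by positivity) h1
                _ ≤ log⁺ 3 + log⁺ ‖w - ζ‖⁻¹ := Real.posLog_mul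
                _ = Real.log 3 + log⁺ ‖w - ζ‖⁻¹ := by
                  rw [Real.posLog_eq_log (by norm_num)]
            have h3 : lker w ζ = ENNReal.ofReal (log⁺ ‖w - ζ‖⁻¹) := by
              unfold lker
              rw [if_neg hζw.symm, one_div, Real.posLog_apply]
              rcases le_total 0 (Real.log ‖w - ζ‖⁻¹) with h | h
              · rw [max_eq_right h]
              · rw [max_eq_left h, ENNReal.ofReal_zero, ENNReal.ofReal_eq_zero]; exact h
            rw [h3, ← ENNReal.ofReal_add (Real.log_nonneg (by norm_num)) Real.posLog_nonneg]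
            exact ENNReal.ofReal_le_ofReal h2
        _ = ENNReal.ofReal (Real.log 3) + ∫⁻ ζ, lker w ζ ∂ν := by
            rw [lintegral_add_left measurable_const]
            simp
        _ ≤ ENNReal.ofReal (Real.log 3) + (μ F)⁻¹ * p w := by
            gcongr
            exact hlin _
        _ ≤ ENNReal.ofReal (Real.log 3) + (μ F)⁻¹ * n := by gcongr
    rw [integral_eq_lintegral_of_nonneg_ae (Eventually.of_forall fun _ => Real.posLog_nonneg)
      (by apply Measurable.aestronglyMeasurable; fun_prop)]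
    exact ENNReal.toReal_mono hAfin hbound

end Pool.Agent.Helper37
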