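import Mathlib

open Set Filter Topology MeasureTheory Metric Complex
open scoped Real

namespace Pool.Agent.Helper37

/-- Trigonometric polynomials on a circle extend to harmonic (polynomial) functions on the plane. -/
lemma span_fourier_extend (c : ℂ) {R : ℝ} (hR : 0 < R) (p : C(AddCircle (2 * π), ℂ))
    (hp : p ∈ Submodule.span ℂ (range <| @fourier (2 * π))) :
    ∃ h : ℂ → ℂ, Continuous h ∧ (∀ z r, Real.circleAverage h z r = h z) ∧
      ∀ x : AddCircle (2 * π), p x = h (c + R * (AddCircle.toCircle x : ℂ)) := by
  have hRc : (R : ℂ) ≠ 0 := by exact_mod_cast hR.ne'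
  have hana : ∀ n : ℕ, ∀ z r, Real.circleAverage (fun w : ℂ => ((w - c) / R) ^ n) z r
      = ((z - c) / R) ^ n := by
    intro n z r
    have hd : DiffContOnCl ℂ (fun w : ℂ => ((w - c) / R) ^ n) (ball z |r|) := by
      apply Differentiable.diffContOnCl
      fun_prop
    exact hd.circleAverage
  refine Submodule.span_induction ?_ ?_ ?_ ?_ hp
  · rintro _ ⟨n, rfl⟩
    obtain ⟨m, rfl | rfl⟩ := Int.eq_nat_or_neg n
    · refine ⟨fun w => ((w - c) / R) ^ m, by fun_prop, hana m, ?_⟩
      intro x
      simp only [fourier_apply]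
      rw [AddCircle.toCircle_zsmul]
      simp [hRc]
    · refine ⟨fun w => (starRingEnd ℂ) (((w - c) / R) ^ m), ?_, ?_, ?_⟩
      · fun_prop
      · intro z r
        have h1 := hana m z r
        have h2 : CircleIntegrable (fun w : ℂ => ((w - c) / R) ^ m) z r := by
          apply ContinuousOn.circleIntegrable'
          fun_prop
        have h3 := (Complex.conjCLE : ℂ →L[ℝ] ℂ).circleAverage_comp_comm h2
        rw [h1] at h3
        exact h3
      · intro x
        rw [fourier_neg, fourier_apply, AddCircle.toCircle_zsmul]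
        simp [hRc]
  · exact ⟨fun _ => 0, by fun_prop, by intro z r; exact Real.circleAverage_const _ _ _, by simp⟩
  · rintro f g - - ⟨h1, hc1, ha1, he1⟩ ⟨h2, hc2, ha2, he2⟩
    refine ⟨fun w => h1 w + h2 w, by fun_prop, ?_, ?_⟩
    · intro z r
      rw [Real.circleAverage_fun_add (hc1.continuousOn.circleIntegrable')
        (hc2.continuousOn.circleIntegrable'), ha1, ha2]
    · intro x; simp [he1, he2]
  · rintro a f - ⟨h1, hc1, ha1, he1⟩
    refine ⟨fun w => a * h1 w, by fun_prop, ?_, ?_⟩
    · intro z r
      have := Real.circleAverage_fun_smul (a := a) (f := h1) (c := z) (R := r)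
      simp only [smul_eq_mul] at this
      rw [this, ha1]
    · intro x; simp [he1]

/-- Continuous functions on a circle are uniformly approximated by functions satisfying the
mean value property on all circles. -/
lemma exists_harmonic_approx (c : ℂ) {R : ℝ} (hR : 0 < R) {g : ℂ → ℝ}
    (hg : ContinuousOn g (sphere c R)) {ε : ℝ} (hε : 0 < ε) :
    ∃ H : ℂ → ℝ, Continuous H ∧ (∀ z r, Real.circleAverage H z r = H z) ∧
      ∀ w ∈ sphere c R, |g w - H w| < ε := by
  have hmem : ∀ x : AddCircle (2 * π), c + R * (AddCircle.toCircle x : ℂ) ∈ sphere c R := by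
    intro x
    rw [mem_sphere_iff_norm, add_sub_cancel_left, norm_mul, Circle.norm_coe, mul_one,
      Complex.norm_real, Real.norm_eq_abs, abs_of_pos hR]
  have hfact : Fact (0 < 2 * π) := ⟨Real.two_pi_pos⟩
  let f : C(AddCircle (2 * π), ℂ) :=
    ⟨fun x => ((g (c + R * (AddCircle.toCircle x : ℂ)) : ℝ) : ℂ), by
      apply Complex.continuous_ofReal.comp
      apply hg.comp_continuous
      · have : Continuous (fun x : AddCircle (2 * π) => (AddCircle.toCircle x : ℂ)) :=
          continuous_induced_dom.comp AddCircle.continuous_toCircle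
        fun_prop
      · exact hmem⟩
  have hf : f ∈ (Submodule.span ℂ (range <| @fourier (2 * π))).topologicalClosure := by
    rw [span_fourier_closure_eq_top]; trivial
  rw [← SetLike.mem_coe, Submodule.topologicalClosure_coe, Metric.mem_closure_iff] at hf
  obtain ⟨p, hp, hd⟩ := hf ε hε
  obtain ⟨h, hc, ha, he⟩ := span_fourier_extend c hR p hp
  refine ⟨fun w => (h w).re, by fun_prop, ?_, ?_⟩
  · intro z r
    have h2 : CircleIntegrable h z r := hc.continuousOn.circleIntegrable'
    have h3 := Complex.reCLM.circleAverage_comp_comm h2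
    rw [ha z r] at h3
    exact h3
  · intro w hw
    obtain ⟨x, hx⟩ : ∃ x : AddCircle (2 * π), w = c + R * (AddCircle.toCircle x : ℂ) := by
      refine ⟨((Complex.arg (w - c) : ℝ) : AddCircle (2 * π)), ?_⟩
      have h1 : ‖w - c‖ = R := by simpa [dist_eq_norm] using hw
      have h2 := Complex.norm_mul_exp_arg_mul_I (w - c)
      rw [h1] at h2
      rw [AddCircle.toCircle_apply_mk]
      simp only [Circle.coe_exp]
      have h3 : (2 * π / (2 * π) * Complex.arg (w - c) : ℝ) = Complex.arg (w - c) := by
        field_simp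
      rw [h3, h2]; ring
    rw [hx]
    have h4 : ‖f x - p x‖ < ε := by
      have := ContinuousMap.dist_lt_iff (f := f) (g := p) hε |>.1 hd x
      rwa [dist_eq_norm] at this
    have h5 : (f x - p x).re = g (c + R * (AddCircle.toCircle x : ℂ))
        - (h (c + R * (AddCircle.toCircle x : ℂ))).re := by
      rw [he x]; simp [f]
    rw [← h5]
    exact lt_of_le_of_lt (Complex.abs_re_le_norm _) h4

/-- If a continuous function is at least `m0` on a circle and its average is at most `m0`, then
it is constant on the circle. -/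
lemma eq_of_circleAverage_le {x : ℂ} {r : ℝ} (hr0 : 0 < r) {g : ℂ → ℝ} {m0 : ℝ}
    (hg : ContinuousOn g (sphere x r)) (hle : ∀ y ∈ sphere x r, m0 ≤ g y)
    (hav : Real.circleAverage g x r ≤ m0) : ∀ y ∈ sphere x r, g y = m0 := by
  intro y hy
  by_contra hne
  have hcont : Continuous (fun θ => g (circleMap x r θ)) :=
    hg.comp_continuous (continuous_circleMap x r) (fun θ => circleMap_mem_sphere x hr0.le θ)
  have hgt : 0 < g y - m0 := by
    rcases lt_or_eq_of_le (hle y hy) with h | h
    · linarith
    · exact absurd h.symm hne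
  have hy' : y ∈ circleMap x r '' Ioc 0 (2 * π) := by
    rw [image_circleMap_Ioc, abs_of_pos hr0]; exact hy
  obtain ⟨θ, hθ, rfl⟩ := hy'
  have hpos : 0 < ∫ θ in (0 : ℝ)..(2 * π), (g (circleMap x r θ) - m0) := by
    apply intervalIntegral.integral_pos Real.two_pi_pos
    · exact (hcont.sub continuous_const).continuousOn
    · intro t _
      have := hle _ (circleMap_mem_sphere x hr0.le t)
      linarith
    · exact ⟨θ, ⟨hθ.1.le, hθ.2⟩, hgt⟩
  rw [intervalIntegral.integral_sub (hcont.intervalIntegrable _ _) (by simp)] at hpos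
  rw [Real.circleAverage_def, smul_eq_mul] at hav
  simp only [intervalIntegral.integral_const, sub_zero, smul_eq_mul, sub_pos] at hpos
  have h2 : (2 * π)⁻¹ * (2 * π * m0) < (2 * π)⁻¹ * ∫ θ in (0 : ℝ)..(2 * π), g (circleMap x r θ) :=
    mul_lt_mul_of_pos_left hpos (inv_pos.2 Real.two_pi_pos)
  rw [inv_mul_cancel_left₀ Real.two_pi_pos.ne'] at h2
  linarith

/-- Minimum principle for continuous functions with the local super-mean value property. -/
lemma min_principle {c : ℂ} {R : ℝ} {g : ℂ → ℝ} (hg : ContinuousOn g (closedBall c R))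
    (hloc : ∀ z ∈ ball c R, ∃ ρ > 0, ∀ r, 0 < r → r < ρ → Real.circleAverage g z r ≤ g z)
    {m : ℝ} (hb : ∀ w ∈ sphere c R, m ≤ g w) : ∀ z ∈ closedBall c R, m ≤ g z := by
  intro z hz
  by_contra hlt
  push Not at hlt
  obtain ⟨x0, hx0, hmin⟩ := (isCompact_closedBall c R).exists_isMinOn ⟨z, hz⟩ hg
  set m0 := g x0 with hm0
  have hm0lt : m0 < m := lt_of_le_of_lt (hmin hz) hlt
  -- the set of minimisers
  let M : Set ℂ := closedBall c R ∩ g ⁻¹' {m0}
  have hMc : IsCompact M := by
    apply (isCompact_closedBall c R).of_isClosed_subset _ inter_subset_left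
    exact hg.preimage_isClosed_of_isClosed isClosed_closedBall isClosed_singleton
  have hMne : M.Nonempty := ⟨x0, hx0, rfl⟩
  obtain ⟨x, hxM, hxmax⟩ := hMc.exists_isMaxOn hMne
    (f := fun y => dist y c) (by fun_prop)
  have hxg : g x = m0 := hxM.2
  have hxball : x ∈ ball c R := by
    rcases lt_or_eq_of_le (mem_closedBall.1 hxM.1) with h | h
    · exact mem_ball.2 h
    · exfalso
      have := hb x (mem_sphere.2 h)
      rw [hxg] at this
      linarith
  obtain ⟨ρ, hρ, hr⟩ := hloc x hxball
  have hRx : 0 < R - dist x c := by rw [mem_ball] at hxball; linarith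
  obtain ⟨r, hr0, hr1⟩ := exists_between (lt_min hρ hRx)
  have hrρ : r < ρ := lt_of_lt_of_le hr1 (min_le_left _ _)
  have hrR : r < R - dist x c := lt_of_lt_of_le hr1 (min_le_right _ _)
  have hsub : closedBall x r ⊆ closedBall c R := by
    apply closedBall_subset_closedBall'
    linarith
  have hav := hr r hr0 hrρ
  rw [hxg] at hav
  -- all values on the circle equal m0
  have hall : ∀ y ∈ sphere x r, g y = m0 :=
    eq_of_circleAverage_le hr0 (hg.mono (sphere_subset_closedBall.trans hsub))
      (fun y hy => hmin (hsub (sphere_subset_closedBall hy))) hav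
  -- the farthest point on the circle
  obtain ⟨y, hy, hyd⟩ : ∃ y ∈ sphere x r, dist x c < dist y c := by
    by_cases hxc : x = c
    · refine ⟨x + r, ?_, ?_⟩
      · simp [abs_of_pos hr0]
      · subst hxc; simp [hr0.ne']
    · have hne : ‖x - c‖ ≠ 0 := by rwa [norm_ne_zero_iff, sub_ne_zero]
      have hpos : 0 < ‖x - c‖ := lt_of_le_of_ne (norm_nonneg _) hne.symm
      refine ⟨x + (r / ‖x - c‖ : ℝ) • (x - c), ?_, ?_⟩
      · rw [mem_sphere_iff_norm, add_sub_cancel_left, norm_smul, Real.norm_eq_abs,
          abs_of_pos (div_pos hr0 hpos), div_mul_cancel₀ _ hne]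
      · rw [dist_eq_norm, dist_eq_norm]
        have : x + (r / ‖x - c‖ : ℝ) • (x - c) - c = (1 + r / ‖x - c‖ : ℝ) • (x - c) := by
          rw [add_smul, one_smul]; ring
        rw [this, norm_smul, Real.norm_eq_abs, abs_of_pos (by positivity), add_mul,
          div_mul_cancel₀ _ hne]
        linarith
  have hyM : y ∈ M := ⟨hsub (sphere_subset_closedBall hy), hall y hy⟩
  exact absurd (hxmax hyM) (not_le.2 hyd)

/-- Local super-mean value property implies the global one, for continuous functions. -/
lemma circleAverage_le_of_local {c : ℂ} {R : ℝ} (hR : 0 < R) {g : ℂ → ℝ}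
    (hg : ContinuousOn g (closedBall c R))
    (hloc : ∀ z ∈ ball c R, ∃ ρ > 0, ∀ r, 0 < r → r < ρ → Real.circleAverage g z r ≤ g z) :
    Real.circleAverage g c R ≤ g c := by
  have hgs : ContinuousOn g (sphere c R) := hg.mono sphere_subset_closedBall
  refine le_of_forall_pos_le_add fun ε hε => ?_
  obtain ⟨H, hHc, hHa, hHe⟩ := exists_harmonic_approx c hR hgs (half_pos hε)
  have h1 : ∀ z ∈ closedBall c R, -(ε / 2) ≤ g z - H z := by
    apply min_principle (hg.sub hHc.continuousOn)
    · intro z hz
      obtain ⟨ρ, hρ, hr⟩ := hloc z hz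
      have hRz : 0 < R - dist z c := by rw [mem_ball] at hz; linarith
      refine ⟨min ρ (R - dist z c), lt_min hρ hRz, fun r hr0 hr1 => ?_⟩
      have hsub : closedBall z r ⊆ closedBall c R := by
        apply closedBall_subset_closedBall'
        have := lt_of_lt_of_le hr1 (min_le_right _ _)
        linarith
      have hint : CircleIntegrable g z r := by
        apply ContinuousOn.circleIntegrable'
        rw [abs_of_pos hr0]
        exact hg.mono (sphere_subset_closedBall.trans hsub)
      rw [Real.circleAverage_sub hint hHc.continuousOn.circleIntegrable', hHa, Pi.sub_apply]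
      have := hr r hr0 (lt_of_lt_of_le hr1 (min_le_left _ _))
      linarith
    · intro w hw
      have := (abs_lt.1 (hHe w hw)).1
      rw [Pi.sub_apply]
      linarith
  have h2 := h1 c (mem_closedBall_self hR.le)
  have h3 : Real.circleAverage g c R ≤ Real.circleAverage (fun z => H z + ε / 2) c R := by
    apply Real.circleAverage_mono
    · apply ContinuousOn.circleIntegrable'
      rwa [abs_of_pos hR]
    · apply ContinuousOn.circleIntegrable'
      fun_prop
    · intro w hw
      rw [abs_of_pos hR] at hw
      have := (abs_lt.1 (hHe w hw)).2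
      linarith
  rw [Real.circleAverage_fun_add hHc.continuousOn.circleIntegrable' (by
    apply ContinuousOn.circleIntegrable'; fun_prop), hHa, Real.circleAverage_const] at h3
  linarith

end Pool.Agent.Helper37
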