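import Mathlib
import Pool.Agent.Helper37.Assembly

open Set Filter Topology MeasureTheory Metric Complex
open scoped Real ENNReal

namespace Pool.Agent.Helper37

section

variable {Df : Set ℂ} (hDf : IsOpen Df) (N : NuData Df) {α : ℝ} (hα : 1 / 2 < α)
    (hα1 : α < 1) {q : ℂ} {r : ℝ} (hr : 0 < r) (hr2 : r ≤ 1 / 2) {Rs : ℝ} (hRs1 : N.B ≤ Rs)
    (hRs2 : ‖q‖ + r ≤ Rs) {E : Set ℂ} (hE1 : E ⊆ ball q (r / 4)) (hE2 : Disjoint E Df)
    (hE3 : ∀ ξ ∈ E, ∀ x ∈ Df ∩ ball q r, ξ ∈ closure (connectedComponentIn (Df ∩ ball q r) x) →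
      ∃ θ : ℝ, ∀ w ∈ connectedComponentIn (Df ∩ ball q r) x, InCusp α ξ θ w)

include hDf hα hα1 hr hr2 hRs1 hRs2 hE1 hE3

include hE2 in
/-- Good functions with small value at a given finite point. -/
lemma exists_good_small {z : ℂ} (hz : z ∈ Df) {ε : ℝ} (hε : 0 < ε) :
    ∃ (g : ℂ → ℝ) (a : ℝ), Good Df Rs E g a ∧ g z < ε := by
  obtain ⟨c1, c2, hc1, hc2, H⟩ := assembly hDf N hα hα1 hr hr2 hRs1 hRs2 hE1 hE3
  obtain ⟨δ, hδ, hsmall⟩ := N.gT_small (q := q) (r := r) hz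
    (ε := ε / (3 * (c1 + 1))) (by positivity)
  set V := Df ∩ ball q r with hV
  have hVopen : IsOpen V := hDf.inter isOpen_ball
  have hVfin : volume V ≠ ⊤ :=
    ((measure_mono inter_subset_right).trans_lt measure_ball_lt_top).ne
  obtain ⟨K, hKV, hKc, hKm⟩ := hVopen.measurableSet.exists_isCompact_sdiff_lt hVfin hδ.ne'
  -- add the point z if it lies in V
  obtain ⟨K', hKK', hK'c, hK'V, hzK'⟩ : ∃ K', K ⊆ K' ∧ IsCompact K' ∧ K' ⊆ V ∧
      (z ∈ ball q r → z ∈ K') := by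
    by_cases hzb : z ∈ ball q r
    · refine ⟨insert z K, subset_insert _ _, hKc.insert z, ?_, fun _ => mem_insert _ _⟩
      exact insert_subset ⟨hz, hzb⟩ hKV
    · exact ⟨K, subset_rfl, hKc, hKV, fun h => absurd h hzb⟩
  -- distance from z to E
  obtain ⟨s, hs, hsub⟩ := Metric.isOpen_iff.1 hDf z hz
  have hsE : ∀ e ∈ E, s ≤ ‖z - e‖ := by
    intro e he
    by_contra hlt
    push Not at hlt
    have : e ∈ ball z s := by rw [mem_ball', dist_eq_norm]; exact hlt
    exact (disjoint_left.1 hE2) he (hsub this)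
  -- choose n
  set M := N.gT q r (ball q r) z with hM
  have hM0 : 0 ≤ M := N.gT_nonneg subset_rfl measurableSet_ball hz
  have hb := tendsto_bnd hα hα1
  have hev : ∀ᶠ n : ℕ in atTop, bnd α n * (s⁻¹ + c2 * M) < ε / 3 := by
    have h1 : Tendsto (fun n : ℕ => bnd α n * (s⁻¹ + c2 * M)) atTop (𝓝 0) := by
      simpa using hb.mul_const (s⁻¹ + c2 * M)
    exact h1.eventually (gt_mem_nhds (by positivity))
  obtain ⟨n, hn1, hn2⟩ := (hev.and (eventually_gt_atTop 0)).exists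
  obtain ⟨S, G, g, hSK, hSm, hGb, hGm, hgood, hoff, hon⟩ := H K' hK'c hK'V n hn2
  refine ⟨g, _, hgood, ?_⟩
  have hSV : S ⊆ ball q r := fun x hx => (hSK hx).1.2
  have hSvol : volume S < δ := by
    refine lt_of_le_of_lt (measure_mono ?_) hKm
    exact fun x hx => ⟨(hSK hx).1, fun hxK => (hSK hx).2 (hKK' hxK)⟩
  have hS := hsmall S hSV hSm hSvol
  have hG : N.gT q r G z ≤ M := N.gT_mono hGb hz
  have hbn : 0 < bnd α n := bnd_pos hn2
  have hT : N.gT2 q r c1 (c2 * bnd α n) S G z ≤ ε / 3 + c2 * bnd α n * M := by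
    unfold NuData.gT2
    have h1 : c1 * N.gT q r S z ≤ ε / 3 := by
      calc c1 * N.gT q r S z ≤ c1 * (ε / (3 * (c1 + 1))) := by gcongr
        _ ≤ (c1 + 1) * (ε / (3 * (c1 + 1))) := by gcongr; linarith
        _ = ε / 3 := by field_simp
    have h2 : c2 * bnd α n * N.gT q r G z ≤ c2 * bnd α n * M := by gcongr
    linarith
  have hfin : bnd α n / s + c2 * bnd α n * M = bnd α n * (s⁻¹ + c2 * M) := by
    rw [div_eq_mul_inv]; ring
  by_cases hzb : z ∈ ball q r
  · have := hon z (hzK' hzb) s hs hsE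
    linarith
  · rw [hoff z hz hzb]
    have : 0 ≤ bnd α n / s := by positivity
    linarith

/-- Good functions with small value at infinity. -/
lemma exists_good_small_infty {ε : ℝ} (hε : 0 < ε) :
    ∃ (g : ℂ → ℝ) (a : ℝ), Good Df Rs E g a ∧ a < ε := by
  obtain ⟨c1, c2, hc1, hc2, H⟩ := assembly hDf N hα hα1 hr hr2 hRs1 hRs2 hE1 hE3
  set A2 := N.A2 q r with hA2
  have hA20 : 0 ≤ A2 := N.A2_nonneg q r
  set V := Df ∩ ball q r with hV
  have hVopen : IsOpen V := hDf.inter isOpen_ball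
  have hVfin : volume V ≠ ⊤ :=
    ((measure_mono inter_subset_right).trans_lt measure_ball_lt_top).ne
  set δ : ℝ := ε / (2 * (c1 * A2 + 1)) with hδ
  have hδ0 : 0 < δ := by positivity
  obtain ⟨K, hKV, hKc, hKm⟩ := hVopen.measurableSet.exists_isCompact_sdiff_lt hVfin
    (ε := ENNReal.ofReal δ) (by simpa using hδ0)
  set M := volume.real (ball q r) with hM
  have hM0 : 0 ≤ M := measureReal_nonneg
  have hb := tendsto_bnd hα hα1
  have hev : ∀ᶠ n : ℕ in atTop, bnd α n * (c2 * (M * A2)) < ε / 2 := by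
    have h1 : Tendsto (fun n : ℕ => bnd α n * (c2 * (M * A2))) atTop (𝓝 0) := by
      simpa using hb.mul_const (c2 * (M * A2))
    exact h1.eventually (gt_mem_nhds (by positivity))
  obtain ⟨n, hn1, hn2⟩ := (hev.and (eventually_gt_atTop 0)).exists
  obtain ⟨S, G, g, hSK, hSm, hGb, hGm, hgood, hoff, hon⟩ := H K hKc hKV n hn2
  refine ⟨g, _, hgood, ?_⟩
  have hbn : 0 < bnd α n := bnd_pos hn2
  have hSvol : volume.real S ≤ δ := by
    have h1 : volume S ≤ ENNReal.ofReal δ := (measure_mono hSK).trans hKm.le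
    exact ENNReal.toReal_le_of_le_ofReal hδ0.le h1
  have hGvol : volume.real G ≤ M := measureReal_mono hGb measure_ball_lt_top.ne
  have h1 : c1 * (volume.real S * A2) ≤ ε / 2 := by
    calc c1 * (volume.real S * A2) ≤ c1 * (δ * A2) := by gcongr
      _ = (c1 * A2) * δ := by ring
      _ ≤ (c1 * A2 + 1) * δ := by gcongr; linarith
      _ = ε / 2 := by rw [hδ]; field_simp
  have h2 : (c2 * bnd α n) * (volume.real G * A2) ≤ bnd α n * (c2 * (M * A2)) := by
    calc (c2 * bnd α n) * (volume.real G * A2) ≤ (c2 * bnd α n) * (M * A2) := by gcongr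
      _ = _ := by ring
  linarith

end

end Pool.Agent.Helper37
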