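import Mathlib
import Pool.Agent.Results.MP_400747_an.HarmonicMeasureCusps

/-! Sanity check for the definition of harmonic measure used in
`MP_400747_an.HarmonicMeasureCusps`: the whole boundary of a domain has harmonic measure one. -/

open Set Filter Topology MeasureTheory Metric
open scoped Real ENNReal OnePoint

namespace Pool.Agent.Helper37.SanityHM

open Pool.Agent.Results.MP_400747_an.HarmonicMeasureCusps

lemma two_pi_ne : ENNReal.ofReal (2 * π) ≠ 0 := by
  simp [Real.pi_pos]

/-- constants are superharmonic -/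
lemma isSuperharmonic_one (D : Set (OnePoint ℂ)) : IsSuperharmonic D (fun _ => 1) := by
  have key : ∀ (c : ℂ) (r : ℝ), circleMean (fun _ => 1) c r = 1 := by
    intro c r
    unfold circleMean
    rw [lintegral_const, Measure.restrict_apply_univ, Real.volume_Ioc, sub_zero, one_mul]
    exact ENNReal.inv_mul_cancel two_pi_ne ENNReal.ofReal_ne_top
  refine ⟨lowerSemicontinuousOn_const, ?_, ?_⟩
  · intro z _
    exact ⟨1, one_pos, fun r _ _ => by rw [key]⟩
  · intro _
    exact ⟨1, one_pos, fun r _ => by rw [key]⟩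

/-- If a lower semicontinuous function is at least `m` on a circle and its mean is at most `m`,
then it equals `m` on the circle. -/
lemma eq_on_circle {v : OnePoint ℂ → ℝ≥0∞} {c : ℂ} {r : ℝ} {m : ℝ≥0∞} (hm : m ≠ ⊤)
    (hr : 0 < r) {D : Set (OnePoint ℂ)} (hsub : ∀ w ∈ sphere c r, (w : OnePoint ℂ) ∈ D)
    (hD : IsOpen D)
    (hlsc : LowerSemicontinuousOn v D) (hge : ∀ w ∈ sphere c r, m ≤ v (w : OnePoint ℂ))
    (hav : circleMean v c r ≤ m) : ∀ w ∈ sphere c r, v (w : OnePoint ℂ) = m := by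
  intro w hw
  by_contra hne
  have hlt : m < v (w : OnePoint ℂ) := lt_of_le_of_ne (hge w hw) (Ne.symm hne)
  obtain ⟨m', hm1, hm2⟩ := exists_between hlt
  have hw' : w ∈ circleMap c r '' Ioc 0 (2 * π) := by
    rw [image_circleMap_Ioc, abs_of_pos hr]; exact hw
  obtain ⟨θ, hθ, rfl⟩ := hw'
  have hwD := hsub _ hw
  have hev : ∀ᶠ x in 𝓝 ((circleMap c r θ : ℂ) : OnePoint ℂ), m' < v x := by
    have := hlsc _ hwD m' hm2
    rwa [hD.nhdsWithin_eq hwD] at this
  have hcont : Continuous (fun t : ℝ => ((circleMap c r t : ℂ) : OnePoint ℂ)) :=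
    OnePoint.continuous_coe.comp (continuous_circleMap c r)
  have hevt : ∀ᶠ t in 𝓝 θ, m' < v ((circleMap c r t : ℂ) : OnePoint ℂ) :=
    hcont.continuousAt.eventually hev
  obtain ⟨δ, hδ, hball⟩ := Metric.eventually_nhds_iff_ball.1 hevt
  set A : Set ℝ := Ioo (max 0 (θ - δ)) θ with hA
  have hAm : MeasurableSet A := measurableSet_Ioo
  have hAsub : A ⊆ Ioc 0 (2 * π) := by
    intro t ht
    exact ⟨lt_of_le_of_lt (le_max_left _ _) ht.1, (ht.2.le).trans hθ.2⟩
  have hApos : volume A ≠ 0 := by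
    rw [hA, Real.volume_Ioo]
    simp only [ne_eq, ENNReal.ofReal_eq_zero, not_le, sub_pos, max_lt_iff]
    exact ⟨hθ.1, by linarith⟩
  have hlow : ∀ t, m + A.indicator (fun _ => m' - m) t ≤ v ((circleMap c r t : ℂ) : OnePoint ℂ) := by
    intro t
    by_cases ht : t ∈ A
    · rw [indicator_of_mem ht, add_tsub_cancel_of_le hm1.le]
      apply le_of_lt
      apply hball
      rw [mem_ball, Real.dist_eq, abs_lt]
      have h1 : θ - δ < t := lt_of_le_of_lt (le_max_right _ _) ht.1
      have h2 : t < θ := ht.2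
      constructor <;> linarith
    · rw [indicator_of_notMem ht, add_zero]
      exact hge _ (circleMap_mem_sphere c hr.le t)
  have h1 : ENNReal.ofReal (2 * π) * m + (m' - m) * volume A ≤
      ∫⁻ t in Ioc (0 : ℝ) (2 * π), v ((circleMap c r t : ℂ) : OnePoint ℂ) := by
    calc ENNReal.ofReal (2 * π) * m + (m' - m) * volume A
        = ∫⁻ t in Ioc (0 : ℝ) (2 * π), (m + A.indicator (fun _ => m' - m) t) := by
          rw [lintegral_add_left measurable_const, lintegral_const, Measure.restrict_apply_univ,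
            Real.volume_Ioc, sub_zero, lintegral_indicator hAm, Measure.restrict_restrict hAm,
            inter_eq_left.2 hAsub, lintegral_const, Measure.restrict_apply_univ, mul_comm m]
      _ ≤ _ := lintegral_mono hlow
  have h2 : m < circleMean v c r := by
    unfold circleMean
    calc m < m + (ENNReal.ofReal (2 * π))⁻¹ * ((m' - m) * volume A) := by
          apply ENNReal.lt_add_right hm
          apply mul_ne_zero
          · exact ENNReal.inv_ne_zero.2 ENNReal.ofReal_ne_top
          · exact mul_ne_zero (tsub_pos_iff_lt.2 hm1).ne' hApos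
      _ = (ENNReal.ofReal (2 * π))⁻¹ * (ENNReal.ofReal (2 * π) * m + (m' - m) * volume A) := by
          rw [mul_add, ← mul_assoc _ (ENNReal.ofReal (2 * π)) m,
            ENNReal.inv_mul_cancel two_pi_ne ENNReal.ofReal_ne_top, one_mul]
      _ ≤ _ := by gcongr
  exact absurd hav (not_le.2 h2)

lemma isClosed_level {D : Set (OnePoint ℂ)} {v : OnePoint ℂ → ℝ≥0∞}
    (hlsc : LowerSemicontinuousOn v D)
    (hlim : ∀ ζ ∈ frontier D, 1 ≤ liminf v (𝓝[D] ζ)) {c : ℝ≥0∞} (hc : c < 1) :
    IsClosed {x | x ∈ D ∧ v x ≤ c} := by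
  rw [← closure_subset_iff_isClosed]
  intro x hx
  have hxD : x ∈ closure D := closure_mono (fun y hy => hy.1) hx
  have hfreq : ∃ᶠ y in 𝓝[D] x, v y ≤ c := by
    rw [mem_closure_iff_frequently] at hx
    rw [frequently_nhdsWithin_iff]
    exact hx.mono fun y hy => ⟨hy.2, hy.1⟩
  have hxin : x ∈ D := by
    by_contra hxn
    have hfr : x ∈ frontier D := ⟨hxD, fun h => hxn (interior_subset h)⟩
    have h1 := hlim x hfr
    have h2 : ∀ᶠ y in 𝓝[D] x, c < v y := by
      apply eventually_lt_of_lt_liminf (lt_of_lt_of_le hc h1)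
    exact hfreq (h2.mono fun y hy => not_le.2 hy)
  refine ⟨hxin, ?_⟩
  by_contra hlt
  push Not at hlt
  exact hfreq ((hlsc x hxin c hlt).mono fun y hy => not_le.2 hy)

/-- Minimum principle. -/
theorem one_le_of_liminf {D : Set (OnePoint ℂ)} (hD : IsOpen D)
    (hne : (frontier D).Nonempty) {v : OnePoint ℂ → ℝ≥0∞} (hv : IsSuperharmonic D v)
    (hlim : ∀ ζ ∈ frontier D, 1 ≤ liminf v (𝓝[D] ζ)) : ∀ z ∈ D, 1 ≤ v z := by
  intro z hz
  by_contra hlt
  push Not at hlt
  have hCc : IsCompact {x | x ∈ D ∧ v x ≤ v z} := (isClosed_level hv.lsc hlim hlt).isCompact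
  have hlscC : LowerSemicontinuousOn v {x | x ∈ D ∧ v x ≤ v z} := hv.lsc.mono (fun y hy => hy.1)
  have hneC : ({x | x ∈ D ∧ v x ≤ v z} : Set (OnePoint ℂ)).Nonempty := ⟨z, hz, le_rfl⟩
  obtain ⟨x0, hx0, hmin⟩ := hlscC.exists_isMinOn hneC hCc
  set m := v x0 with hm
  have hm1 : m < 1 := lt_of_le_of_lt hx0.2 hlt
  have hmtop : m ≠ ⊤ := (hm1.trans ENNReal.one_lt_top).ne
  have hge : ∀ x ∈ D, m ≤ v x := by
    intro x hx
    rcases le_or_gt (v x) (v z) with h | h
    · exact hmin ⟨hx, h⟩
    · exact (hx0.2).trans h.le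
  set M : Set (OnePoint ℂ) := {x | x ∈ D ∧ v x ≤ m} with hM
  have hMc : IsClosed M := isClosed_level hv.lsc hlim hm1
  have hMo : IsOpen M := by
    rw [isOpen_iff_mem_nhds]
    intro x hx
    have hopen : IsOpen {z : ℂ | (z : OnePoint ℂ) ∈ D} := hD.preimage OnePoint.continuous_coe
    induction x using OnePoint.rec with
    | infty =>
      obtain ⟨R, hR, hav⟩ := hv.mean_le_infty hx.1
      have h1 : ∀ᶠ x in 𝓝 (∞ : OnePoint ℂ), x ∈ D := hD.mem_nhds hx.1
      have h2 : ∀ᶠ w : ℂ in coclosedCompact ℂ, (w : OnePoint ℂ) ∈ D :=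
        (OnePoint.tendsto_coe_infty).eventually h1
      rw [OnePoint.nhds_infty_eq, mem_sup, mem_pure, mem_map]
      refine ⟨?_, hx⟩
      rw [coclosedCompact_eq_cocompact] at h2 ⊢
      obtain ⟨R0, hR0⟩ := Metric.hasBasis_cobounded_compl_closedBall (0 : ℂ) |>.eventually_iff.1
        (by rwa [Metric.cobounded_eq_cocompact])
      have h3 : ∀ᶠ w : ℂ in cocompact ℂ, max R R0 < ‖w‖ :=
        tendsto_norm_cocompact_atTop.eventually_gt_atTop _
      filter_upwards [h3] with w hw
      have hwR : R < ‖w‖ := lt_of_le_of_lt (le_max_left _ _) hw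
      have hwR0 : R0 < ‖w‖ := lt_of_le_of_lt (le_max_right _ _) hw
      have hsub : ∀ y ∈ sphere (0 : ℂ) ‖w‖, (y : OnePoint ℂ) ∈ D := by
        intro y hy
        apply hR0.2
        have : ‖y‖ = ‖w‖ := by simpa using hy
        simp only [mem_compl_iff, mem_closedBall, dist_zero_right, not_le, this]
        exact hwR0
      have hmean := hav ‖w‖ hwR
      have heq := eq_on_circle hmtop (hR.trans hwR) hsub hD hv.lsc (fun y hy => hge _ (hsub y hy))
        (hmean.trans hx.2) w (by simp)
      exact ⟨hsub w (by simp), heq.le⟩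
    | coe w =>
      obtain ⟨ρ, hρ, hav⟩ := hv.mean_le w hx.1
      obtain ⟨ρD, hρD, hρDsub⟩ := Metric.isOpen_iff.1 hopen w hx.1
      rw [OnePoint.nhds_coe_eq, mem_map]
      apply mem_of_superset (ball_mem_nhds w (lt_min hρ hρD))
      intro y hy
      by_cases hyw : y = w
      · rw [hyw]; exact hx
      · have hr0 : 0 < dist y w := dist_pos.2 hyw
        have hyρ : dist y w < ρ := lt_of_lt_of_le (mem_ball.1 hy) (min_le_left _ _)
        have hyρD : dist y w < ρD := lt_of_lt_of_le (mem_ball.1 hy) (min_le_right _ _)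
        have hsub : ∀ u ∈ sphere w (dist y w), (u : OnePoint ℂ) ∈ D := by
          intro u hu
          apply hρDsub
          rw [mem_ball, mem_sphere.1 hu]
          exact hyρD
        have heq := eq_on_circle hmtop hr0 hsub hD hv.lsc (fun u hu => hge _ (hsub u hu))
          ((hav _ hr0 hyρ).trans hx.2) y (mem_sphere.2 rfl)
        exact ⟨hsub y (mem_sphere.2 rfl), heq.le⟩
  have hMuniv : M = univ := by
    have hclopen : IsClopen M := ⟨hMc, hMo⟩
    exact hclopen.eq_univ ⟨x0, hx0.1, le_rfl⟩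
  have hDuniv : D = univ := by
    apply eq_univ_of_univ_subset
    rw [← hMuniv]
    exact fun x hx => hx.1
  rw [hDuniv, frontier_univ] at hne
  exact not_nonempty_empty hne

/-- The whole boundary has harmonic measure one. -/
theorem harmonicMeasure_frontier {D : Set (OnePoint ℂ)} (hD : IsOpen D)
    (hne : (frontier D).Nonempty) {z : OnePoint ℂ} (hz : z ∈ D) :
    harmonicMeasure D z (frontier D) = 1 := by
  apply le_antisymm
  · refine iInf_le_of_le (fun _ => 1) (iInf_le_of_le (isSuperharmonic_one D)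
      (iInf_le_of_le ?_ le_rfl))
    intro ζ hζ
    have : (𝓝[D] ζ).NeBot := mem_closure_iff_nhdsWithin_neBot.1 hζ.1
    simp
  · unfold harmonicMeasure
    refine le_iInf fun v => le_iInf fun hv => le_iInf fun hlim => ?_
    exact one_le_of_liminf hD hne hv hlim z hz

end Pool.Agent.Helper37.SanityHM
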